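import Pool.Agent.Helper97.Fuchs.Defs2

/-!
# Random walks on Fuchsian groups: definitions for the final statement (PSL(2,ℝ) level)
-/

namespace Pool.Agent.Helper97.Fuchs

open MeasureTheory Matrix UpperHalfPlane Filter Topology
open scoped MatrixGroups ENNReal BigOperators

noncomputable section

/-- action of `PSL(2,ℝ)` on the upper half plane through any representative matrix -/
def actH (g : PSL(2, ℝ)) (z : ℍ) : ℍ := (Quotient.out g : SL(2, ℝ)) • z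

/-- a discrete subgroup of `PSL(2,ℝ)` -/
def Fuchsian (Γ : Subgroup PSL(2, ℝ)) : Prop := DiscreteTopology Γ

/-- finite covolume: some set of finite hyperbolic area meets every orbit -/
def FiniteCovolume (Γ : Subgroup PSL(2, ℝ)) : Prop :=
  ∃ F : Set ℍ, MeasurableSet F ∧ volume F < ∞ ∧ ∀ z : ℍ, ∃ g ∈ Γ, actH g z ∈ F

/-- Chabauty (Fell) convergence of closed subgroups -/
def ChabautyTendsto (Γ : ℕ → Subgroup PSL(2, ℝ)) (Γ' : Subgroup PSL(2, ℝ)) : Prop :=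
  (∀ K : Set PSL(2, ℝ), IsCompact K → Disjoint K (Γ' : Set PSL(2, ℝ)) →
      ∀ᶠ n in atTop, Disjoint K (Γ n : Set PSL(2, ℝ))) ∧
  (∀ O : Set PSL(2, ℝ), IsOpen O → (O ∩ (Γ' : Set PSL(2, ℝ))).Nonempty →
      ∀ᶠ n in atTop, (O ∩ (Γ n : Set PSL(2, ℝ))).Nonempty)

/-- Hausdorff convergence of finite subsets of the topological group `PSL(2,ℝ)` -/
def HausdorffTendsto (S : ℕ → Finset PSL(2, ℝ)) (S' : Finset PSL(2, ℝ)) : Prop :=
  ∀ V ∈ 𝓝 (1 : PSL(2, ℝ)), ∀ᶠ n in atTop,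
    (∀ s ∈ S n, ∃ t ∈ S', t⁻¹ * s ∈ V) ∧ (∀ t ∈ S', ∃ s ∈ S n, t⁻¹ * s ∈ V)

/-- the critical exponent (with respect to the base point `i`) -/
def criticalExponent (Γ : Subgroup PSL(2, ℝ)) : ℝ :=
  sInf {s : ℝ | 0 ≤ s ∧ Summable fun g : Γ => Real.exp (-s * dist I (actH (g : PSL(2, ℝ)) I))}

/-- the Cayley transform onto the unit disc -/
def cayley (z : ℍ) : ℂ := ((z : ℂ) - Complex.I) / ((z : ℂ) + Complex.I)

/-- limit set in the boundary circle of the disc model -/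
def limitSet (Γ : Subgroup PSL(2, ℝ)) : Set S1 :=
  {ζ | (ζ : ℂ) ∈ closure ((fun g : PSL(2, ℝ) => cayley (actH g I)) '' (Γ : Set PSL(2, ℝ)))}

/-- `δ`-conformal measures on the boundary circle -/
def IsConformal (Γ : Subgroup PSL(2, ℝ)) (δ : ℝ) (κ : Measure S1) : Prop :=
  ∀ g : SL(2, ℝ), (QuotientGroup.mk g : PSL(2, ℝ)) ∈ Γ → ∀ E : Set S1, MeasurableSet E →
    κ (bmap g '' E) = ∫⁻ ζ in E, ENNReal.ofReal (bjac g ζ ^ δ) ∂κ

/-- Patterson–Sullivan measures -/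
def IsPattersonSullivan (Γ : Subgroup PSL(2, ℝ)) (κ : Measure S1) : Prop :=
  IsFiniteMeasure κ ∧ κ ≠ 0 ∧ IsConformal Γ (criticalExponent Γ) κ ∧ κ (limitSet Γ)ᶜ = 0

/-- the group elements of a random walk carry the discrete `σ`-algebra -/
scoped instance : MeasurableSpace PSL(2, ℝ) := ⊤

/-- `x 0 * ⋯ * x (k-1)` -/
def walk (x : ℕ → PSL(2, ℝ)) (k : ℕ) : PSL(2, ℝ) := (List.ofFn fun j : Fin k => x j).prod

/-- the law of i.i.d. steps -/
def stepLaw (μ : PMF PSL(2, ℝ)) : Measure (ℕ → PSL(2, ℝ)) :=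
  Measure.infinitePi fun _ => μ.toMeasure

/-- `ν` is the hitting measure of the random walk with step law `μ` started at `o` -/
def IsHittingMeasure (o : ℍ) (μ : PMF PSL(2, ℝ)) (ν : Measure S1) : Prop :=
  ∃ F : (ℕ → PSL(2, ℝ)) → S1, Measurable F ∧
    (∀ᵐ x ∂(stepLaw μ), Tendsto (fun k => cayley (actH (walk x k) o)) atTop (𝓝 (F x : ℂ))) ∧
    (stepLaw μ).map F = ν

end

end Pool.Agent.Helper97.Fuchs
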