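import Pool.Agent.Helper97.Fuchs.Defs4
import Pool.Agent.Helper97.Fuchs.Defs3

/-!
# Random walks on Fuchsian groups: calculus of words and expectations
-/

namespace Pool.Agent.Helper97.Fuchs

open MeasureTheory Matrix UpperHalfPlane Filter Topology
open scoped MatrixGroups ENNReal BigOperators

noncomputable section

set_option linter.unusedSectionVars false
set_option linter.unusedVariables false

variable {ι : Type} [Fintype ι]

/-! ### words -/

@[simp] lemma word_zero (A : ι → SL(2, ℝ)) (u : Fin 0 → ι) : word A u = 1 := by simp [word]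

lemma word_succ (A : ι → SL(2, ℝ)) {n : ℕ} (u : Fin (n + 1) → ι) :
    word A u = A (u 0) * word A (fun k => u k.succ) := by
  simp [word, List.ofFn_succ]

lemma word_cons (A : ι → SL(2, ℝ)) {n : ℕ} (i : ι) (u : Fin n → ι) :
    word A (Fin.cons i u : Fin (n + 1) → ι) = A i * word A u := by
  rw [word_succ]; simp

lemma word_append (A : ι → SL(2, ℝ)) {m n : ℕ} (u : Fin m → ι) (v : Fin n → ι) :
    word A (Fin.append u v) = word A u * word A v := by
  unfold word
  rw [← List.prod_append]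
  congr 1
  have : (fun k => A (Fin.append u v k)) = Fin.append (fun k => A (u k)) (fun k => A (v k)) := by
    funext k
    refine Fin.addCases (fun i => ?_) (fun i => ?_) k
    · simp
    · simp
  rw [this, List.ofFn_fin_append]

@[simp] lemma wt_zero (w : ι → ℝ) (u : Fin 0 → ι) : wt w u = 1 := by simp [wt]

lemma wt_succ (w : ι → ℝ) {n : ℕ} (u : Fin (n + 1) → ι) :
    wt w u = w (u 0) * wt w (fun k => u k.succ) := by
  simp [wt, Fin.prod_univ_succ]

lemma wt_append (w : ι → ℝ) {m n : ℕ} (u : Fin m → ι) (v : Fin n → ι) :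
    wt w (Fin.append u v) = wt w u * wt w v := by
  simp [wt, Fin.prod_univ_add]

lemma wt_nonneg {w : ι → ℝ} (hw : ∀ i, 0 ≤ w i) {n : ℕ} (u : Fin n → ι) : 0 ≤ wt w u :=
  Finset.prod_nonneg fun _ _ => hw _

lemma IsWt.nonneg {w : ι → ℝ} (hw : IsWt w) (i : ι) : 0 ≤ w i := (hw.pos i).le

lemma wt_pos {w : ι → ℝ} (hw : IsWt w) {n : ℕ} (u : Fin n → ι) : 0 < wt w u :=
  Finset.prod_pos fun _ _ => hw.pos _

/-! ### expectations -/

lemma Ex_zero (w : ι → ℝ) (F : (Fin 0 → ι) → ℝ) : Ex w 0 F = F default := by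
  unfold Ex
  rw [Fintype.sum_unique]
  simp

lemma Ex_succ (w : ι → ℝ) (n : ℕ) (F : (Fin (n + 1) → ι) → ℝ) :
    Ex w (n + 1) F = ∑ i, w i * Ex w n (fun u => F (Fin.cons i u)) := by
  unfold Ex
  rw [← (Fin.consEquiv (fun _ : Fin (n + 1) => ι)).sum_comp, Fintype.sum_prod_type]
  refine Finset.sum_congr rfl fun i _ => ?_
  rw [Finset.mul_sum]
  refine Finset.sum_congr rfl fun u _ => ?_
  rw [wt_succ]
  simp [Fin.consEquiv, mul_assoc]

lemma Ex_append (w : ι → ℝ) (m n : ℕ) (F : (Fin (m + n) → ι) → ℝ) :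
    Ex w (m + n) F = Ex w m (fun u => Ex w n (fun v => F (Fin.append u v))) := by
  unfold Ex
  rw [← (Fin.appendEquiv m n).sum_comp, Fintype.sum_prod_type]
  refine Finset.sum_congr rfl fun u _ => ?_
  rw [Finset.mul_sum]
  refine Finset.sum_congr rfl fun v _ => ?_
  simp only [Fin.appendEquiv, Equiv.coe_fn_mk]
  rw [wt_append]
  ring

lemma Ex_congr (w : ι → ℝ) {n : ℕ} {F G : (Fin n → ι) → ℝ} (h : ∀ u, F u = G u) :
    Ex w n F = Ex w n G := by
  unfold Ex; exact Finset.sum_congr rfl fun u _ => by rw [h]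

lemma Ex_mono {w : ι → ℝ} (hw : ∀ i, 0 ≤ w i) {n : ℕ} {F G : (Fin n → ι) → ℝ}
    (h : ∀ u, F u ≤ G u) : Ex w n F ≤ Ex w n G :=
  Finset.sum_le_sum fun u _ => mul_le_mul_of_nonneg_left (h u) (wt_nonneg hw u)

lemma Ex_nonneg {w : ι → ℝ} (hw : ∀ i, 0 ≤ w i) {n : ℕ} {F : (Fin n → ι) → ℝ}
    (h : ∀ u, 0 ≤ F u) : 0 ≤ Ex w n F :=
  Finset.sum_nonneg fun u _ => mul_nonneg (wt_nonneg hw u) (h u)

lemma Ex_add (w : ι → ℝ) {n : ℕ} (F G : (Fin n → ι) → ℝ) :
    Ex w n (fun u => F u + G u) = Ex w n F + Ex w n G := by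
  simp [Ex, mul_add, Finset.sum_add_distrib]

lemma Ex_sub (w : ι → ℝ) {n : ℕ} (F G : (Fin n → ι) → ℝ) :
    Ex w n (fun u => F u - G u) = Ex w n F - Ex w n G := by
  simp [Ex, mul_sub, Finset.sum_sub_distrib]

lemma Ex_mul_left (w : ι → ℝ) {n : ℕ} (c : ℝ) (F : (Fin n → ι) → ℝ) :
    Ex w n (fun u => c * F u) = c * Ex w n F := by
  unfold Ex
  rw [Finset.mul_sum]
  exact Finset.sum_congr rfl fun u _ => by ring

lemma Ex_sum (w : ι → ℝ) {n : ℕ} {κ : Type} (s : Finset κ) (F : κ → (Fin n → ι) → ℝ) :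
    Ex w n (fun u => ∑ j ∈ s, F j u) = ∑ j ∈ s, Ex w n (F j) := by
  unfold Ex
  rw [Finset.sum_comm]
  exact Finset.sum_congr rfl fun u _ => by rw [Finset.mul_sum]

lemma sum_wt {w : ι → ℝ} (hw : ∑ i, w i = 1) (n : ℕ) : ∑ u : Fin n → ι, wt w u = 1 := by
  induction n with
  | zero => rw [Fintype.sum_unique]; simp
  | succ n ih =>
    have := Ex_succ w n (fun _ => (1 : ℝ))
    simp only [Ex, mul_one] at this
    rw [this, ih]
    simp [hw]

lemma Ex_const {w : ι → ℝ} (hw : ∑ i, w i = 1) (n : ℕ) (c : ℝ) : Ex w n (fun _ => c) = c := by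
  unfold Ex
  rw [← Finset.sum_mul, sum_wt hw, one_mul]

/-- expectations do not see the order of the letters -/
lemma Ex_rev (w : ι → ℝ) {n : ℕ} (F : (Fin n → ι) → ℝ) :
    Ex w n (fun u => F (fun k => u k.rev)) = Ex w n F := by
  unfold Ex
  let E : (Fin n → ι) ≃ (Fin n → ι) :=
    { toFun := fun u k => u k.rev
      invFun := fun u k => u k.rev
      left_inv := fun u => by funext k; simp
      right_inv := fun u => by funext k; simp }
  rw [← E.sum_comp (fun u => wt w u * F u)]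
  refine Finset.sum_congr rfl fun u _ => ?_
  have h2 : wt w (E u) = wt w u := by
    unfold wt
    exact Equiv.prod_comp (Fin.revPerm (n := n)) (fun k => w (u k))
  rw [h2]
  rfl

/-! ### the Markov operator -/

lemma avg_mono {w : ι → ℝ} (hw : ∀ i, 0 ≤ w i) (A : ι → SL(2, ℝ)) {f g : ℂ → ℝ}
    (h : ∀ z, z ≠ 0 → f z ≤ g z) : ∀ z, z ≠ 0 → avg w A f z ≤ avg w A g z := fun z hz =>
  Finset.sum_le_sum fun i _ => mul_le_mul_of_nonneg_left (h _ (lin_ne_zero hz)) (hw i)

lemma avg_iter_mono {w : ι → ℝ} (hw : ∀ i, 0 ≤ w i) (A : ι → SL(2, ℝ)) {f g : ℂ → ℝ}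
    (h : ∀ z, z ≠ 0 → f z ≤ g z) (n : ℕ) :
    ∀ z, z ≠ 0 → (avg w A)^[n] f z ≤ (avg w A)^[n] g z := by
  induction n generalizing f g with
  | zero => simpa using h
  | succ n ih =>
    intro z hz
    rw [Function.iterate_succ_apply, Function.iterate_succ_apply]
    exact ih (avg_mono hw A h) z hz

lemma avg_smul (w : ι → ℝ) (A : ι → SL(2, ℝ)) (c : ℝ) (f : ℂ → ℝ) :
    avg w A (fun z => c * f z) = fun z => c * avg w A f z := by
  funext z
  simp only [avg, Finset.mul_sum]
  exact Finset.sum_congr rfl fun i _ => by ring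

lemma avg_iter_smul (w : ι → ℝ) (A : ι → SL(2, ℝ)) (c : ℝ) (f : ℂ → ℝ) (n : ℕ) :
    (avg w A)^[n] (fun z => c * f z) = fun z => c * (avg w A)^[n] f z := by
  induction n generalizing f with
  | zero => rfl
  | succ n ih => rw [Function.iterate_succ_apply, avg_smul, ih, Function.iterate_succ_apply]

theorem Ex_iter (w : ι → ℝ) (A : ι → SL(2, ℝ)) (f : ℂ → ℝ) (n : ℕ) (z : ℂ) :
    Ex w n (fun u => f (lin (word A u) z)) = (avg w A)^[n] f z := by
  induction n generalizing f with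
  | zero => simp [Ex_zero]
  | succ n ih =>
    rw [Ex_succ, Function.iterate_succ_apply, ← ih (avg w A f)]
    simp only [word_cons, lin_mul, avg]
    rw [Ex_sum]
    refine Finset.sum_congr rfl fun i _ => ?_
    rw [Ex_mul_left]

/-! ### group membership -/

lemma mem_grp (A : ι → SL(2, ℝ)) (i : ι) : A i ∈ grp A :=
  Subgroup.subset_closure (Or.inl ⟨i, rfl⟩)

lemma neg_one_mem_grp (A : ι → SL(2, ℝ)) : (-1 : SL(2, ℝ)) ∈ grp A :=
  Subgroup.subset_closure (Or.inr rfl)

lemma word_mem_grp (A : ι → SL(2, ℝ)) {n : ℕ} (u : Fin n → ι) : word A u ∈ grp A := by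
  unfold word
  refine Subgroup.list_prod_mem _ ?_
  intro x hx
  rw [List.mem_ofFn] at hx
  obtain ⟨k, rfl⟩ := hx
  exact mem_grp A _

lemma pre_mem_grp (A : ι → SL(2, ℝ)) {n : ℕ} (u : Fin n → ι) (k : ℕ) : pre A u k ∈ grp A := by
  unfold pre
  refine Subgroup.list_prod_mem _ ?_
  intro x hx
  have := List.mem_of_mem_take hx
  rw [List.mem_ofFn] at this
  obtain ⟨k, rfl⟩ := this
  exact mem_grp A _

@[simp] lemma lin_U (x : ℝ) (z : ℂ) : lin (U x) z = ⟨z.re + x * z.im, z.im⟩ := by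
  apply Complex.ext <;> simp [lin, U]

@[simp] lemma U_00 (x : ℝ) : (U x) 0 0 = 1 := rfl
@[simp] lemma U_01 (x : ℝ) : (U x) 0 1 = x := rfl
@[simp] lemma U_10 (x : ℝ) : (U x) 1 0 = 0 := rfl
@[simp] lemma U_11 (x : ℝ) : (U x) 1 1 = 1 := rfl

lemma ext_entries {g h : SL(2, ℝ)} (h00 : g 0 0 = h 0 0) (h01 : g 0 1 = h 0 1)
    (h10 : g 1 0 = h 1 0) (h11 : g 1 1 = h 1 1) : g = h := by
  ext i j
  fin_cases i <;> fin_cases j <;> assumption

lemma U_add (x y : ℝ) : U (x + y) = U x * U y := by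
  apply ext_entries <;> simp [mul_apply', add_comm]

@[simp] lemma U_zero : U 0 = 1 := by
  apply ext_entries <;> simp

lemma U_neg (x : ℝ) : U (-x) = (U x)⁻¹ := by
  rw [eq_inv_iff_mul_eq_one, ← U_add]; simp

lemma U_nat (n : ℕ) : U (n : ℝ) = U 1 ^ n := by
  induction n with
  | zero => simp
  | succ n ih => rw [pow_succ, ← ih, ← U_add]; push_cast; rfl

lemma U_nat_mem {Γ : Subgroup SL(2, ℝ)} (hU : U 1 ∈ Γ) (n : ℕ) : U (n : ℝ) ∈ Γ := by
  rw [U_nat]; exact pow_mem hU n

lemma U_int_mem {Γ : Subgroup SL(2, ℝ)} (hU : U 1 ∈ Γ) (n : ℤ) : U (n : ℝ) ∈ Γ := by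
  obtain ⟨m, rfl | rfl⟩ := n.eq_nat_or_neg
  · simpa using U_nat_mem hU m
  · have := inv_mem (U_nat_mem hU m)
    rw [← U_neg] at this
    simpa using this

lemma nrm_U (x : ℝ) : nrm (U x) = √(2 + x ^ 2) := by
  unfold nrm U
  congr 1
  simp
  ring

lemma nrm_U_le (x : ℝ) (hx : 0 ≤ x) : nrm (U x) ≤ x + 2 := by
  rw [nrm_U, Real.sqrt_le_left (by linarith)]
  nlinarith

lemma wordIns_mem_grp (A : ι → SL(2, ℝ)) (hU : U 1 ∈ grp A) (N : ℕ) (n : ℕ) (e : ℕ → Bool)
    (u : Fin n → ι) : wordIns A N n e u ∈ grp A := by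
  induction n generalizing e with
  | zero => simp [wordIns, one_mem]
  | succ n ih =>
    rw [wordIns]
    refine mul_mem (mul_mem (mem_grp A _) ?_) (ih _ _)
    split_ifs
    · exact U_nat_mem hU N
    · exact one_mem _

/-- without insertions `wordIns` is `word` -/
lemma wordIns_false (A : ι → SL(2, ℝ)) (N : ℝ) (n : ℕ) (e : ℕ → Bool) (he : ∀ k < n, e k = false)
    (u : Fin n → ι) : wordIns A N n e u = word A u := by
  induction n generalizing e with
  | zero => simp [wordIns]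
  | succ n ih =>
    rw [wordIns, word_succ, he 0 (by omega), ih _ (fun k hk => he (k + 1) (by omega))]
    simp

lemma wordIns_append (A : ι → SL(2, ℝ)) (N : ℝ) (m n : ℕ) (e : ℕ → Bool)
    (u : Fin m → ι) (v : Fin n → ι) :
    wordIns A N (m + n) e (Fin.append u v) =
      wordIns A N m e u * wordIns A N n (fun k => e (m + k)) v := by
  induction m generalizing e with
  | zero =>
    simp only [wordIns, one_mul]
    have h0 : u = Fin.elim0 := by funext k; exact k.elim0
    subst h0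
    have : ∀ (k : ℕ) (hk : k = n) (v' : Fin k → ι) (e' : ℕ → Bool) , (∀ j, e' j = e j) →
        (∀ j : Fin k, v' j = v (Fin.cast hk j)) → wordIns A N k e' v' = wordIns A N n e v := by
      intro k hk v' e' he hv
      subst hk
      have h1 : e' = e := funext he
      have h2 : v' = v := funext hv
      rw [h1, h2]
    rw [this (0 + n) (by simp) _ e (fun _ => rfl) (fun j => by simp [Fin.append, Fin.addCases])]
    rw [this n rfl v (fun k => e (0 + k)) (fun j => by simp) (fun _ => rfl)]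
  | succ m ih =>
    have key : ∀ (k : ℕ) (hk : k = m + 1 + n) (v' : Fin k → ι),
        (∀ j : Fin k, v' j = Fin.append u v (Fin.cast hk j)) →
        wordIns A N k e v' = wordIns A N (m + 1 + n) e (Fin.append u v) := by
      intro k hk v' hv
      subst hk
      have h2 : v' = Fin.append u v := funext hv
      rw [h2]
    rw [← key (m + n + 1) (by omega) (fun j => Fin.append u v (Fin.cast (by omega) j))
      (fun _ => rfl)]
    rw [wordIns, wordIns, mul_assoc (A (u 0) * _)]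
    have h3 : Fin.append u v (Fin.cast (by omega : m + n + 1 = m + 1 + n) 0) = u 0 := by
      have : (Fin.cast (by omega : m + n + 1 = m + 1 + n) 0) = Fin.castAdd n (0 : Fin (m + 1)) := by
        ext; simp
      rw [this, Fin.append_left]
    have h4 : (fun j : Fin (m + n) => Fin.append u v
        (Fin.cast (by omega : m + n + 1 = m + 1 + n) j.succ)) =
        Fin.append (fun j : Fin m => u j.succ) v := by
      funext j
      refine Fin.addCases (fun i => ?_) (fun i => ?_) j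
      · have : (Fin.cast (by omega : m + n + 1 = m + 1 + n) (Fin.castAdd n i).succ) =
            Fin.castAdd n i.succ := by ext; simp
        rw [this, Fin.append_left, Fin.append_left]
      · have : (Fin.cast (by omega : m + n + 1 = m + 1 + n) (Fin.natAdd m i).succ) =
            Fin.natAdd (m + 1) i := by ext; simp; omega
        rw [this, Fin.append_right, Fin.append_right]
    rw [h3, h4, ih]
    congr 2
    congr 1
    funext k
    congr 1
    omega

/-! ### hyperbolic distance and the norm -/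

lemma smul_I_coe (g : SL(2, ℝ)) :
    ((g • I : ℍ) : ℂ) = ((g 0 0 : ℂ) * Complex.I + g 0 1) / ((g 1 0 : ℂ) * Complex.I + g 1 1) := by
  rw [coe_specialLinearGroup_apply]
  simp

lemma im_smul_I (g : SL(2, ℝ)) : (g • I : ℍ).im = 1 / (g 1 0 ^ 2 + g 1 1 ^ 2) := by
  have h := smul_I_coe g
  have hd : g 1 0 ^ 2 + g 1 1 ^ 2 ≠ 0 := by
    intro h0
    have h1 : g 1 0 = 0 := by nlinarith [sq_nonneg (g 1 0), sq_nonneg (g 1 1)]
    have h2 : g 1 1 = 0 := by nlinarith [sq_nonneg (g 1 0), sq_nonneg (g 1 1)]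
    have := det_eq g
    rw [h1, h2] at this
    simp at this
  rw [← coe_im, h, Complex.div_im]
  simp [Complex.normSq_apply]
  have h2 := det_eq g
  have hd' : g 1 1 * g 1 1 + g 1 0 * g 1 0 ≠ 0 := by
    intro h0; apply hd; nlinarith
  have hd2 : g 1 1 ^ 2 + g 1 0 ^ 2 ≠ 0 := by
    intro h0; apply hd; nlinarith
  field_simp
  linear_combination (g 1 0 ^ 2 + g 1 1 ^ 2) * h2

lemma re_smul_I (g : SL(2, ℝ)) : (g • I : ℍ).re = rp g := by
  have h := smul_I_coe g
  rw [← coe_re, h, Complex.div_re, rp]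
  simp [Complex.normSq_apply]
  ring

end

end Pool.Agent.Helper97.Fuchs
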