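import Pool.Agent.Helper97.Fuchs.Base

/-!
# Random walks on Fuchsian groups: norm, distance, compactness
-/

namespace Pool.Agent.Helper97.Fuchs

open MeasureTheory Matrix UpperHalfPlane Filter Topology
open scoped MatrixGroups ENNReal BigOperators

noncomputable section

/-- `‖g‖² = 2 cosh d(i, g i)` -/
lemma nrm_sq_cosh (g : SL(2, ℝ)) : nrm g ^ 2 = 2 * Real.cosh (dist I (g • I)) := by
  have hd : g 1 0 ^ 2 + g 1 1 ^ 2 ≠ 0 := by
    intro h0
    have h1 : g 1 0 = 0 := by nlinarith [sq_nonneg (g 1 0), sq_nonneg (g 1 1)]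
    have h2 : g 1 1 = 0 := by nlinarith [sq_nonneg (g 1 0), sq_nonneg (g 1 1)]
    have := det_eq g
    rw [h1, h2] at this
    simp at this
  rw [UpperHalfPlane.cosh_dist, nrm_sq]
  have him : (g • I : ℍ).im = 1 / (g 1 0 ^ 2 + g 1 1 ^ 2) := im_smul_I g
  have hre : (g • I : ℍ).re = rp g := re_smul_I g
  have e1 : dist (I : ℂ) (g • I : ℍ) ^ 2 = (g • I : ℍ).re ^ 2 + (1 - (g • I : ℍ).im) ^ 2 := by
    rw [Complex.dist_eq, Complex.sq_norm, Complex.normSq_apply]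
    simp
    ring
  rw [e1, him, hre, rp]
  simp only [I_im]
  have h2 := det_eq g
  field_simp
  linear_combination ((g 0 0 * g 1 1 - g 0 1 * g 1 0) + 1) * h2

lemma nrm_smul_dist (g h : SL(2, ℝ)) :
    nrm (g⁻¹ * h) ^ 2 = 2 * Real.cosh (dist (g • I) (h • I)) := by
  rw [nrm_sq_cosh, mul_smul]
  congr 2
  conv_rhs => rw [← dist_smul g⁻¹ (g • I) (h • I)]
  rw [inv_smul_smul]

lemma continuous_entry (i j : Fin 2) : Continuous (fun g : SL(2, ℝ) => g i j) := by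
  have h1 : Continuous (fun g : SL(2, ℝ) => g i) := by fun_prop
  exact (continuous_apply j).comp h1

lemma continuous_nrm : Continuous nrm := by
  unfold nrm
  have := continuous_entry
  exact ((((this 0 0).pow 2).add ((this 0 1).pow 2)).add ((this 1 0).pow 2)
    |>.add ((this 1 1).pow 2)).sqrt

lemma continuous_d1 : Continuous d1 := by
  unfold d1
  have := continuous_entry
  exact (((((this 0 0).sub continuous_const).pow 2).add ((this 0 1).pow 2)).add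
    ((this 1 0).pow 2) |>.add (((this 1 1).sub continuous_const).pow 2)).sqrt

/-- norm balls of `SL(2,ℝ)` are compact -/
lemma isCompact_nrm_le (R : ℝ) : IsCompact {g : SL(2, ℝ) | nrm g ≤ R} := by
  let : SeminormedAddCommGroup (Matrix (Fin 2) (Fin 2) ℝ) := Matrix.seminormedAddCommGroup
  have : ProperSpace (Matrix (Fin 2) (Fin 2) ℝ) := pi_properSpace
  have h1 : IsCompact {m : Matrix (Fin 2) (Fin 2) ℝ | ∀ i j, |m i j| ≤ |R|} := by
    convert! ProperSpace.isCompact_closedBall (0 : Matrix (Fin 2) (Fin 2) ℝ) |R|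
    ext m
    simp only [Metric.closedBall, dist_zero_right, Set.mem_ofPred_eq,
      Matrix.norm_def, pi_norm_le_iff_of_nonempty, Real.norm_eq_abs]
  have h2 := Matrix.SpecialLinearGroup.isClosedEmbedding_val.isCompact_preimage h1
  refine h2.of_isClosed_subset (isClosed_le continuous_nrm continuous_const) ?_
  intro (g : SL(2, ℝ)) hg i j
  have hg' : nrm g ≤ R := hg
  have h3 : (g i j) ^ 2 ≤ R ^ 2 := by
    have h4 : nrm g ^ 2 ≤ R ^ 2 := by nlinarith [nrm_nonneg g]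
    rw [nrm_sq] at h4
    fin_cases i <;> fin_cases j <;> simp <;>
      nlinarith [sq_nonneg (g 0 0), sq_nonneg (g 0 1), sq_nonneg (g 1 0), sq_nonneg (g 1 1)]
  exact sq_le_sq.1 h3

lemma d1_sq (g : SL(2, ℝ)) :
    d1 g ^ 2 = (g 0 0 - 1) ^ 2 + g 0 1 ^ 2 + g 1 0 ^ 2 + (g 1 1 - 1) ^ 2 :=
  Real.sq_sqrt (by positivity)

lemma d1_nonneg (g : SL(2, ℝ)) : 0 ≤ d1 g := Real.sqrt_nonneg _

lemma d1_eq_zero {g : SL(2, ℝ)} : d1 g = 0 ↔ g = 1 := by
  constructor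
  · intro h
    have h1 := d1_sq g
    rw [h] at h1
    have h00 : g 0 0 - 1 = 0 := by
      nlinarith [sq_nonneg (g 0 0 - 1), sq_nonneg (g 0 1), sq_nonneg (g 1 0), sq_nonneg (g 1 1 - 1)]
    have h01 : g 0 1 = 0 := by
      nlinarith [sq_nonneg (g 0 0 - 1), sq_nonneg (g 0 1), sq_nonneg (g 1 0), sq_nonneg (g 1 1 - 1)]
    have h10 : g 1 0 = 0 := by
      nlinarith [sq_nonneg (g 0 0 - 1), sq_nonneg (g 0 1), sq_nonneg (g 1 0), sq_nonneg (g 1 1 - 1)]
    have h11 : g 1 1 - 1 = 0 := by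
      nlinarith [sq_nonneg (g 0 0 - 1), sq_nonneg (g 0 1), sq_nonneg (g 1 0), sq_nonneg (g 1 1 - 1)]
    apply ext_entries
    · simp; linarith
    · simpa using h01
    · simpa using h10
    · simp; linarith
  · rintro rfl
    simp [d1]

lemma abs_entry_le_d1 (g : SL(2, ℝ)) (i j : Fin 2) : |g i j - (1 : SL(2, ℝ)) i j| ≤ d1 g := by
  rw [← abs_of_nonneg (d1_nonneg g)]
  apply sq_le_sq.1
  rw [d1_sq]
  fin_cases i <;> fin_cases j <;> simp <;>
    nlinarith [sq_nonneg (g 0 0 - 1), sq_nonneg (g 0 1), sq_nonneg (g 1 0), sq_nonneg (g 1 1 - 1)]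

/-- in a discrete group a nontrivial element is far from `1` -/
lemma Disc.le_d1 {ε : ℝ} {Γ : Subgroup SL(2, ℝ)} (hd : Disc ε Γ) {g : SL(2, ℝ)} (hg : g ∈ Γ)
    (h1 : g ≠ 1) : ε ≤ d1 g := by
  by_contra hc
  have hc' : d1 g < ε := lt_of_not_ge hc
  exact h1 (hd.2 g hg fun i j => (abs_entry_le_d1 g i j).trans_lt hc')

lemma d1_lt_of_entries {g : SL(2, ℝ)} {ε : ℝ} (h : ∀ i j, |g i j - (1 : SL(2, ℝ)) i j| < ε) :
    d1 g < 2 * ε := by
  have hε : 0 < ε := lt_of_le_of_lt (abs_nonneg _) (h 0 0)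
  have h00 := sq_lt_sq' (by have := (abs_lt.1 (h 0 0)).1; linarith) (abs_lt.1 (h 0 0)).2
  have h01 := sq_lt_sq' (by have := (abs_lt.1 (h 0 1)).1; linarith) (abs_lt.1 (h 0 1)).2
  have h10 := sq_lt_sq' (by have := (abs_lt.1 (h 1 0)).1; linarith) (abs_lt.1 (h 1 0)).2
  have h11 := sq_lt_sq' (by have := (abs_lt.1 (h 1 1)).1; linarith) (abs_lt.1 (h 1 1)).2
  simp at h00 h01 h10 h11
  have : d1 g ^ 2 < (2 * ε) ^ 2 := by
    rw [d1_sq]; nlinarith
  nlinarith [d1_nonneg g]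

lemma inv_00 (h : SL(2, ℝ)) : (h⁻¹) 0 0 = h 1 1 := by
  rw [Matrix.SpecialLinearGroup.coe_inv, Matrix.adjugate_fin_two]; rfl
lemma inv_01 (h : SL(2, ℝ)) : (h⁻¹) 0 1 = -h 0 1 := by
  rw [Matrix.SpecialLinearGroup.coe_inv, Matrix.adjugate_fin_two]; rfl
lemma inv_10 (h : SL(2, ℝ)) : (h⁻¹) 1 0 = -h 1 0 := by
  rw [Matrix.SpecialLinearGroup.coe_inv, Matrix.adjugate_fin_two]; rfl
lemma inv_11 (h : SL(2, ℝ)) : (h⁻¹) 1 1 = h 0 0 := by
  rw [Matrix.SpecialLinearGroup.coe_inv, Matrix.adjugate_fin_two]; rfl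

/-- conjugation distorts `d1` boundedly -/
lemma d1_conj_le (h g : SL(2, ℝ)) : d1 (h * g * h⁻¹) ≤ nrm h ^ 2 * d1 g := by
  have key : d1 (h * g * h⁻¹) ^ 2 ≤ (nrm h ^ 2 * d1 g) ^ 2 := by
    rw [mul_pow, d1_sq, d1_sq, nrm_sq]
    have hdet := det_eq h
    simp only [mul_apply', inv_00, inv_01, inv_10, inv_11]
    -- entries of h (g-1) h⁻¹
    obtain ⟨a, ha⟩ : ∃ a, a = h 0 0 := ⟨_, rfl⟩
    obtain ⟨b, hb⟩ : ∃ b, b = h 0 1 := ⟨_, rfl⟩
    obtain ⟨c, hc⟩ : ∃ c, c = h 1 0 := ⟨_, rfl⟩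
    obtain ⟨d, hd⟩ : ∃ d, d = h 1 1 := ⟨_, rfl⟩
    obtain ⟨p, hp⟩ : ∃ p, p = g 0 0 - 1 := ⟨_, rfl⟩
    obtain ⟨q, hq⟩ : ∃ q, q = g 0 1 := ⟨_, rfl⟩
    obtain ⟨r, hr⟩ : ∃ r, r = g 1 0 := ⟨_, rfl⟩
    obtain ⟨s, hs⟩ : ∃ s, s = g 1 1 - 1 := ⟨_, rfl⟩
    have hp' : g 0 0 = p + 1 := by linarith
    have hs' : g 1 1 = s + 1 := by linarith
    rw [hp', hs', ← hq, ← hr, ← ha, ← hb, ← hc, ← hd]
    rw [← ha, ← hb, ← hc, ← hd] at hdet
    have e00 : (a * (p + 1) + b * r) * d + (a * q + b * (s + 1)) * -c - 1 =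
        (a * p + b * r) * d - (a * q + b * s) * c := by linear_combination hdet
    have e01 : (a * (p + 1) + b * r) * -b + (a * q + b * (s + 1)) * a =
        -(a * p + b * r) * b + (a * q + b * s) * a := by ring
    have e10 : (c * (p + 1) + d * r) * d + (c * q + d * (s + 1)) * -c =
        (c * p + d * r) * d - (c * q + d * s) * c := by ring
    have e11 : (c * (p + 1) + d * r) * -b + (c * q + d * (s + 1)) * a - 1 =
        -(c * p + d * r) * b + (c * q + d * s) * a := by linear_combination hdet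
    rw [e00, e01, e10, e11]
    have f0 : ∀ P Q : ℝ, (P * d - Q * c) ^ 2 + (-P * b + Q * a) ^ 2 ≤
        (P ^ 2 + Q ^ 2) * (a ^ 2 + b ^ 2 + c ^ 2 + d ^ 2) := by
      intro P Q
      nlinarith [sq_nonneg (P * c + Q * d), sq_nonneg (P * a + Q * b)]
    have f1 := f0 (a * p + b * r) (a * q + b * s)
    have f2 := f0 (c * p + d * r) (c * q + d * s)
    have f3 : (a * p + b * r) ^ 2 ≤ (a ^ 2 + b ^ 2) * (p ^ 2 + r ^ 2) := by
      nlinarith [sq_nonneg (a * r - b * p)]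
    have f4 : (a * q + b * s) ^ 2 ≤ (a ^ 2 + b ^ 2) * (q ^ 2 + s ^ 2) := by
      nlinarith [sq_nonneg (a * s - b * q)]
    have f5 : (c * p + d * r) ^ 2 ≤ (c ^ 2 + d ^ 2) * (p ^ 2 + r ^ 2) := by
      nlinarith [sq_nonneg (c * r - d * p)]
    have f6 : (c * q + d * s) ^ 2 ≤ (c ^ 2 + d ^ 2) * (q ^ 2 + s ^ 2) := by
      nlinarith [sq_nonneg (c * s - d * q)]
    have f7 : (a * p + b * r) ^ 2 + (a * q + b * s) ^ 2 + ((c * p + d * r) ^ 2 + (c * q + d * s) ^ 2)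
        ≤ (a ^ 2 + b ^ 2 + c ^ 2 + d ^ 2) * (p ^ 2 + q ^ 2 + r ^ 2 + s ^ 2) := by
      linarith [f3, f4, f5, f6]
    have f8 : 0 ≤ a ^ 2 + b ^ 2 + c ^ 2 + d ^ 2 := by positivity
    have f9 := mul_le_mul_of_nonneg_right f7 f8
    calc _ ≤ ((a * p + b * r) ^ 2 + (a * q + b * s) ^ 2) * (a ^ 2 + b ^ 2 + c ^ 2 + d ^ 2) +
          ((c * p + d * r) ^ 2 + (c * q + d * s) ^ 2) * (a ^ 2 + b ^ 2 + c ^ 2 + d ^ 2) := by
            linarith [f1, f2]
      _ = ((a * p + b * r) ^ 2 + (a * q + b * s) ^ 2 +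
          ((c * p + d * r) ^ 2 + (c * q + d * s) ^ 2)) * (a ^ 2 + b ^ 2 + c ^ 2 + d ^ 2) := by ring
      _ ≤ _ := f9
      _ = _ := by ring
  exact le_of_sq_le_sq' key (by have := d1_nonneg g; positivity)

/-- conjugates of uniformly discrete groups are uniformly discrete -/
lemma disc_conj {ε : ℝ} {Γ Γ' : Subgroup SL(2, ℝ)} (hd : Disc ε Γ) (h : SL(2, ℝ))
    (hΓ : ∀ g ∈ Γ', h⁻¹ * g * h ∈ Γ) : ∃ ε', Disc ε' Γ' := by
  refine ⟨ε / (2 * nrm h ^ 2), ?_, ?_⟩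
  · have := hd.1; have := nrm_pos h; positivity
  · intro g hg hsm
    by_contra hne
    have h1 : h⁻¹ * g * h ≠ 1 := by
      intro h2
      apply hne
      have : g = h * (h⁻¹ * g * h) * h⁻¹ := by group
      rw [this, h2]; group
    have h2 := hd.le_d1 (hΓ g hg) h1
    have h3 := d1_conj_le h⁻¹ g
    rw [inv_inv, nrm_inv] at h3
    have h4 := d1_lt_of_entries hsm
    have h5 : nrm h ^ 2 * d1 g < ε := by
      have hp : 0 < nrm h ^ 2 := by have := nrm_pos h; positivity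
      calc nrm h ^ 2 * d1 g < nrm h ^ 2 * (2 * (ε / (2 * nrm h ^ 2))) := by
            exact mul_lt_mul_of_pos_left h4 hp
        _ = ε := by
            have h6 := (nrm_pos h).ne'
            field_simp
    linarith

lemma d1_neg_one : d1 (-1 : SL(2, ℝ)) = √8 := by
  unfold d1
  congr 1
  simp
  norm_num

/-- the centre of `SL(2,ℝ)` -/
lemma mem_center_iff (g : SL(2, ℝ)) : g ∈ Subgroup.center SL(2, ℝ) ↔ g = 1 ∨ g = -1 := by
  constructor
  · intro h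
    rw [Subgroup.mem_center_iff] at h
    have hJ : ∃ J : SL(2, ℝ), J 0 0 = 0 ∧ J 0 1 = 1 ∧ J 1 0 = -1 ∧ J 1 1 = 0 :=
      ⟨⟨!![0, 1; -1, 0], by simp [Matrix.det_fin_two]⟩, rfl, rfl, rfl, rfl⟩
    obtain ⟨J, j00, j01, j10, j11⟩ := hJ
    have h1 := h (U 1)
    have h2 := h J
    have e1 : (U 1 * g) 0 0 = (g * U 1) 0 0 := by rw [h1]
    have e2 : (U 1 * g) 0 1 = (g * U 1) 0 1 := by rw [h1]
    have e3 : (J * g) 0 0 = (g * J) 0 0 := by rw [h2]
    simp only [mul_apply', U_00, U_01, U_10, U_11, j00, j01, j10] at e1 e2 e3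
    have hc : g 1 0 = 0 := by linarith
    have hb : g 0 1 = 0 := by linarith
    have had : g 0 0 = g 1 1 := by linarith
    have hdet := det_eq g
    rw [hc, hb, ← had] at hdet
    have h4 : (g 0 0 - 1) * (g 0 0 + 1) = 0 := by linarith
    rcases mul_eq_zero.1 h4 with h5 | h5
    · left
      apply ext_entries <;> simp <;> linarith
    · right
      apply ext_entries <;> simp <;> linarith
  · rintro (rfl | rfl)
    · exact one_mem _
    · rw [Subgroup.mem_center_iff]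
      intro g
      simp

lemma mk_eq_mk_iff (g h : SL(2, ℝ)) :
    (QuotientGroup.mk g : PSL(2, ℝ)) = QuotientGroup.mk h ↔ h = g ∨ h = -g := by
  rw [QuotientGroup.eq, mem_center_iff]
  constructor
  · rintro (h1 | h1)
    · left; rw [inv_mul_eq_one] at h1; exact h1.symm
    · right; rw [inv_mul_eq_iff_eq_mul] at h1; rw [h1]; simp
  · rintro (rfl | rfl)
    · left; simp
    · right; simp

end

end Pool.Agent.Helper97.Fuchs
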