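import Mathlib

/-!
# Random walks on Fuchsian groups: basic definitions (SL(2,ℝ) level)
-/

namespace Pool.Agent.Helper97.Fuchs

open MeasureTheory Matrix UpperHalfPlane Filter Topology
open scoped MatrixGroups ENNReal BigOperators

noncomputable section

/-- linear action of `SL(2,ℝ)` on `ℂ = ℝ²` -/
def lin (g : SL(2, ℝ)) (z : ℂ) : ℂ :=
  ⟨g 0 0 * z.re + g 0 1 * z.im, g 1 0 * z.re + g 1 1 * z.im⟩

/-- the determinant of two vectors of `ℂ = ℝ²` -/
def wedge (z w : ℂ) : ℝ := z.re * w.im - z.im * w.re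

/-- the Hilbert-Schmidt norm -/
def nrm (g : SL(2, ℝ)) : ℝ :=
  √(g 0 0 ^ 2 + g 0 1 ^ 2 + g 1 0 ^ 2 + g 1 1 ^ 2)

/-- the unit circle of `ℂ` -/
abbrev S1 : Type := Metric.sphere (0 : ℂ) 1

lemma lin_re (g : SL(2, ℝ)) (z : ℂ) : (lin g z).re = g 0 0 * z.re + g 0 1 * z.im := rfl
lemma lin_im (g : SL(2, ℝ)) (z : ℂ) : (lin g z).im = g 1 0 * z.re + g 1 1 * z.im := rfl

lemma det_eq (g : SL(2, ℝ)) : g 0 0 * g 1 1 - g 0 1 * g 1 0 = 1 := by
  have := g.det_coe
  rwa [Matrix.det_fin_two] at this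

@[simp] lemma lin_one (z : ℂ) : lin 1 z = z := by
  apply Complex.ext <;> simp [lin]

lemma mul_apply' (g h : SL(2, ℝ)) (i j : Fin 2) :
    (g * h) i j = g i 0 * h 0 j + g i 1 * h 1 j := by
  simp [Matrix.SpecialLinearGroup.coe_mul, Matrix.mul_apply, Fin.sum_univ_two]

lemma lin_mul (g h : SL(2, ℝ)) (z : ℂ) : lin (g * h) z = lin g (lin h z) := by
  apply Complex.ext
  · simp only [lin_re, lin_im, mul_apply']; ring
  · simp only [lin_re, lin_im, mul_apply']; ring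

lemma lin_add (g : SL(2, ℝ)) (z w : ℂ) : lin g (z + w) = lin g z + lin g w := by
  apply Complex.ext
  · simp only [lin_re, Complex.add_re, Complex.add_im]; ring
  · simp only [lin_im, Complex.add_re, Complex.add_im]; ring

lemma lin_smul (g : SL(2, ℝ)) (t : ℝ) (z : ℂ) : lin g ((t : ℂ) * z) = (t : ℂ) * lin g z := by
  apply Complex.ext
  · simp only [lin_re, lin_im, Complex.mul_re, Complex.mul_im, Complex.ofReal_re, Complex.ofReal_im]
    ring
  · simp only [lin_re, lin_im, Complex.mul_re, Complex.mul_im, Complex.ofReal_re, Complex.ofReal_im]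
    ring

@[simp] lemma lin_zero (g : SL(2, ℝ)) : lin g 0 = 0 := by
  apply Complex.ext <;> simp [lin]

lemma lin_neg (g : SL(2, ℝ)) (z : ℂ) : lin g (-z) = - lin g z := by
  apply Complex.ext
  · simp only [lin_re, Complex.neg_re, Complex.neg_im]; ring
  · simp only [lin_im, Complex.neg_re, Complex.neg_im]; ring

@[simp] lemma lin_inv_lin (g : SL(2, ℝ)) (z : ℂ) : lin g⁻¹ (lin g z) = z := by
  rw [← lin_mul, inv_mul_cancel, lin_one]

@[simp] lemma lin_lin_inv (g : SL(2, ℝ)) (z : ℂ) : lin g (lin g⁻¹ z) = z := by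
  rw [← lin_mul, mul_inv_cancel, lin_one]

lemma lin_eq_zero {g : SL(2, ℝ)} {z : ℂ} : lin g z = 0 ↔ z = 0 := by
  constructor
  · intro h
    have := lin_inv_lin g z
    rw [h, lin_zero] at this
    exact this.symm
  · rintro rfl; exact lin_zero g

lemma lin_ne_zero {g : SL(2, ℝ)} {z : ℂ} (h : z ≠ 0) : lin g z ≠ 0 := fun h' => h (lin_eq_zero.1 h')

lemma wedge_lin (g : SL(2, ℝ)) (z w : ℂ) : wedge (lin g z) (lin g w) = wedge z w := by
  have h := det_eq g
  simp only [wedge, lin_re, lin_im]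
  linear_combination (z.re * w.im - z.im * w.re) * h

lemma abs_wedge_le (z w : ℂ) : |wedge z w| ≤ ‖z‖ * ‖w‖ := by
  have h : (wedge z w) ^ 2 ≤ (‖z‖ * ‖w‖) ^ 2 := by
    rw [mul_pow, Complex.sq_norm, Complex.sq_norm, Complex.normSq_apply, Complex.normSq_apply]
    simp only [wedge]
    nlinarith [sq_nonneg (z.re * w.re + z.im * w.im)]
  exact abs_le_of_sq_le_sq h (by positivity)

lemma wedge_sq_add (z w : ℂ) :
    wedge z w ^ 2 + (z.re * w.re + z.im * w.im) ^ 2 = ‖z‖ ^ 2 * ‖w‖ ^ 2 := by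
  rw [Complex.sq_norm, Complex.sq_norm, Complex.normSq_apply, Complex.normSq_apply]
  simp only [wedge]; ring

lemma nrm_sq (g : SL(2, ℝ)) : nrm g ^ 2 = g 0 0 ^ 2 + g 0 1 ^ 2 + g 1 0 ^ 2 + g 1 1 ^ 2 :=
  Real.sq_sqrt (by positivity)

lemma nrm_nonneg (g : SL(2, ℝ)) : 0 ≤ nrm g := Real.sqrt_nonneg _

lemma two_le_nrm_sq (g : SL(2, ℝ)) : 2 ≤ nrm g ^ 2 := by
  rw [nrm_sq]
  nlinarith [det_eq g, sq_nonneg (g 0 0 - g 1 1), sq_nonneg (g 0 1 + g 1 0)]

lemma one_le_nrm (g : SL(2, ℝ)) : 1 ≤ nrm g := by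
  nlinarith [two_le_nrm_sq g, nrm_nonneg g]

lemma nrm_pos (g : SL(2, ℝ)) : 0 < nrm g := lt_of_lt_of_le one_pos (one_le_nrm g)

lemma le_of_sq_le_sq' {a b : ℝ} (h : a ^ 2 ≤ b ^ 2) (hb : 0 ≤ b) : a ≤ b := by
  by_contra hc
  have hc' : b < a := lt_of_not_ge hc
  nlinarith

lemma norm_lin_le (g : SL(2, ℝ)) (z : ℂ) : ‖lin g z‖ ≤ nrm g * ‖z‖ := by
  have h : ‖lin g z‖ ^ 2 ≤ (nrm g * ‖z‖) ^ 2 := by
    rw [mul_pow, nrm_sq, Complex.sq_norm, Complex.sq_norm, Complex.normSq_apply,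
      Complex.normSq_apply, lin_re, lin_im]
    nlinarith [sq_nonneg (g 0 0 * z.im - g 0 1 * z.re), sq_nonneg (g 1 0 * z.im - g 1 1 * z.re)]
  exact le_of_sq_le_sq' h (by have := nrm_nonneg g; positivity)

lemma nrm_inv (g : SL(2, ℝ)) : nrm g⁻¹ = nrm g := by
  unfold nrm
  congr 1
  rw [Matrix.SpecialLinearGroup.coe_inv, Matrix.adjugate_fin_two]
  simp
  ring

lemma norm_le_lin (g : SL(2, ℝ)) (z : ℂ) : ‖z‖ ≤ nrm g * ‖lin g z‖ := by
  have := norm_lin_le g⁻¹ (lin g z)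
  rwa [lin_inv_lin, nrm_inv] at this

lemma nrm_mul_le (g h : SL(2, ℝ)) : nrm (g * h) ≤ nrm g * nrm h := by
  have hh : nrm (g * h) ^ 2 ≤ (nrm g * nrm h) ^ 2 := by
    rw [mul_pow, nrm_sq, nrm_sq, nrm_sq]
    simp only [mul_apply']
    nlinarith [sq_nonneg (g 0 0 * h 1 0 - g 0 1 * h 0 0), sq_nonneg (g 0 0 * h 1 1 - g 0 1 * h 0 1),
      sq_nonneg (g 1 0 * h 1 0 - g 1 1 * h 0 0), sq_nonneg (g 1 0 * h 1 1 - g 1 1 * h 0 1)]
  exact le_of_sq_le_sq' hh (by have := nrm_nonneg g; have := nrm_nonneg h; positivity)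

/-- normalised action on the unit circle -/
def circ (g : SL(2, ℝ)) (z : S1) : S1 :=
  ⟨lin g z / (‖lin g z‖ : ℂ), by
    have hz : (z : ℂ) ≠ 0 := by
      intro h
      have := z.2
      simp [h] at this
    have h0 : ‖lin g (z : ℂ)‖ ≠ 0 := by simp [lin_ne_zero hz]
    simp [h0]⟩

lemma S1_ne_zero (z : S1) : (z : ℂ) ≠ 0 := by
  intro h
  have := z.2
  simp [h] at this

@[simp] lemma S1_norm (z : S1) : ‖(z : ℂ)‖ = 1 := by simpa using z.2

lemma coe_circ (g : SL(2, ℝ)) (z : S1) : (circ g z : ℂ) = lin g z / (‖lin g z‖ : ℂ) := rfl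

lemma circ_smul_eq (g : SL(2, ℝ)) (z : S1) : lin g z = (‖lin g (z : ℂ)‖ : ℂ) * circ g z := by
  rw [coe_circ]
  have h0 : (‖lin g (z : ℂ)‖ : ℂ) ≠ 0 := by
    simpa using lin_ne_zero (S1_ne_zero z)
  field_simp

@[simp] lemma circ_one (z : S1) : circ 1 z = z := by
  apply Subtype.ext
  simp [coe_circ]

lemma circ_mul (g h : SL(2, ℝ)) (z : S1) : circ (g * h) z = circ g (circ h z) := by
  apply Subtype.ext
  have hz := S1_ne_zero z
  have h1 : (‖lin h (z : ℂ)‖ : ℂ) ≠ 0 := by simpa using lin_ne_zero hz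
  have e1 : lin g (circ h z : ℂ) = ((‖lin h (z : ℂ)‖⁻¹ : ℝ) : ℂ) * lin (g * h) z := by
    rw [coe_circ, lin_mul, ← lin_smul]
    congr 1
    push_cast
    field_simp
  rw [coe_circ, coe_circ g, e1]
  rw [norm_mul, Complex.norm_real, norm_inv, norm_norm]
  have h2 : (‖lin (g * h) (z : ℂ)‖ : ℂ) ≠ 0 := by simpa using lin_ne_zero hz
  push_cast
  field_simp

lemma continuous_lin : Continuous (fun p : SL(2, ℝ) × ℂ => lin p.1 p.2) := by
  have h : ∀ i j : Fin 2, Continuous (fun p : SL(2, ℝ) × ℂ => p.1 i j) := by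
    intro i j
    have h1 : Continuous (fun p : SL(2, ℝ) × ℂ => p.1 i) := by fun_prop
    exact (continuous_apply j).comp h1
  have hre : Continuous (fun p : SL(2, ℝ) × ℂ => p.2.re) := Complex.continuous_re.comp continuous_snd
  have him : Continuous (fun p : SL(2, ℝ) × ℂ => p.2.im) := Complex.continuous_im.comp continuous_snd
  have h1 : Continuous (fun p : SL(2, ℝ) × ℂ => (lin p.1 p.2).re) := by
    simp only [lin_re]
    exact ((h 0 0).mul hre).add ((h 0 1).mul him)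
  have h2 : Continuous (fun p : SL(2, ℝ) × ℂ => (lin p.1 p.2).im) := by
    simp only [lin_im]
    exact ((h 1 0).mul hre).add ((h 1 1).mul him)
  exact (Complex.equivRealProdCLM.symm.continuous.comp (h1.prodMk h2))

lemma continuous_lin_right (g : SL(2, ℝ)) : Continuous (lin g) :=
  continuous_lin.comp (continuous_const.prodMk continuous_id)

lemma continuous_circ (g : SL(2, ℝ)) : Continuous (circ g) := by
  apply Continuous.subtype_mk
  have h1 : Continuous fun z : S1 => lin g (z : ℂ) := (continuous_lin_right g).comp continuous_subtype_val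
  refine h1.div (Complex.continuous_ofReal.comp h1.norm) ?_
  intro z
  simpa using lin_ne_zero (S1_ne_zero z)

lemma measurable_circ (g : SL(2, ℝ)) : Measurable (circ g) := (continuous_circ g).measurable

/-! ### finite random walks -/

variable {ι : Type} [Fintype ι]

/-- positive probability weights -/
structure IsWt (w : ι → ℝ) : Prop where
  pos : ∀ i, 0 < w i
  sum : ∑ i, w i = 1

/-- the Markov operator `f ↦ (z ↦ ∑ w_i f(A_i z))` -/
def avg (w : ι → ℝ) (A : ι → SL(2, ℝ)) (f : ℂ → ℝ) (z : ℂ) : ℝ := ∑ i, w i * f (lin (A i) z)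

/-- the product of a word `A_{u 0} ⋯ A_{u (n-1)}` -/
def word (A : ι → SL(2, ℝ)) {n : ℕ} (u : Fin n → ι) : SL(2, ℝ) :=
  (List.ofFn fun k => A (u k)).prod

/-- the weight of a word -/
def wt (w : ι → ℝ) {n : ℕ} (u : Fin n → ι) : ℝ := ∏ k, w (u k)

/-- expectation over words of length `n` with i.i.d. letters of law `w` -/
def Ex (w : ι → ℝ) (n : ℕ) (F : (Fin n → ι) → ℝ) : ℝ := ∑ u, wt w u * F u

/-- `L_n = E log ‖Z_n‖` -/
def L (w : ι → ℝ) (A : ι → SL(2, ℝ)) (n : ℕ) : ℝ := Ex w n (fun u => Real.log (nrm (word A u)))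

/-- the Lyapunov exponent -/
def lam (w : ι → ℝ) (A : ι → SL(2, ℝ)) : ℝ := ⨅ n : ℕ, L w A (n + 1) / (n + 1)

/-- no probability measure on the unit circle is invariant under all `A_i` -/
def NoInv (A : ι → SL(2, ℝ)) : Prop :=
  ∀ η : Measure S1, IsProbabilityMeasure η → ¬ ∀ i, η.map (circ (A i)) = η

/-- stationary measures of the walk -/
def Stat (w : ι → ℝ) (A : ι → SL(2, ℝ)) (η : Measure S1) : Prop :=
  IsProbabilityMeasure η ∧ (∑ i, ENNReal.ofReal (w i) • η.map (circ (A i))) = η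

end

end Pool.Agent.Helper97.Fuchs
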