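import Pool.Agent.Helper97.Fuchs.Defs

/-!
# Random walks on Fuchsian groups: further definitions
-/

namespace Pool.Agent.Helper97.Fuchs

open MeasureTheory Matrix UpperHalfPlane Filter Topology
open scoped MatrixGroups ENNReal BigOperators

noncomputable section

/-- uniform discreteness: only the identity has all entries `ε`-close to those of `1` -/
def Disc (ε : ℝ) (Γ : Subgroup SL(2, ℝ)) : Prop :=
  0 < ε ∧ ∀ g ∈ Γ, (∀ i j, |g i j - (1 : SL(2, ℝ)) i j| < ε) → g = 1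

/-- Hilbert-Schmidt distance to `1` -/
def d1 (g : SL(2, ℝ)) : ℝ :=
  √((g 0 0 - 1) ^ 2 + g 0 1 ^ 2 + g 1 0 ^ 2 + (g 1 1 - 1) ^ 2)

/-- group generated by the steps and `-1` -/
def grp {ι : Type} (A : ι → SL(2, ℝ)) : Subgroup SL(2, ℝ) := Subgroup.closure (Set.range A ∪ {-1})

/-- the upper unipotent matrix -/
def U (x : ℝ) : SL(2, ℝ) := ⟨!![1, x; 0, 1], by simp [Matrix.det_fin_two]⟩

/-- `rp g = Re (g • i)` -/
def rp (g : SL(2, ℝ)) : ℝ := (g 0 0 * g 1 0 + g 0 1 * g 1 1) / (g 1 0 ^ 2 + g 1 1 ^ 2)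

/-- Shannon entropy of `X` under the weights `P` on a finite type, in expected form -/
def Hs {Ω α : Type} [Fintype Ω] (P : Ω → ℝ) (X : Ω → α) : ℝ :=
  open Classical in ∑ ω, P ω * (-Real.log (∑ ω' with X ω' = X ω, P ω'))

variable {ι : Type} [Fintype ι]

/-- entropy of the position of the walk at time `n` -/
def HW (w : ι → ℝ) (A : ι → SL(2, ℝ)) (n : ℕ) : ℝ :=
  Hs (fun u : Fin n → ι => wt w u) (fun u => word A u)

/-- asymptotic entropy -/
def hent (w : ι → ℝ) (A : ι → SL(2, ℝ)) : ℝ := ⨅ n : ℕ, HW w A (n + 1) / (n + 1)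

/-- products with insertions: after the `k`-th letter `U N` is inserted if `e k` -/
def wordIns (A : ι → SL(2, ℝ)) (N : ℝ) : (n : ℕ) → (ℕ → Bool) → (Fin n → ι) → SL(2, ℝ)
  | 0, _, _ => 1
  | n + 1, e, u => A (u 0) * (if e 0 then U N else 1) *
      wordIns A N n (fun k => e (k + 1)) (fun k => u k.succ)

/-- `∑_{k ≤ n} 1 / ‖x_k‖` along the chain `x_k = (inserted product of the first k letters)⁻¹ x` -/
def Sx (A : ι → SL(2, ℝ)) (N : ℝ) : (n : ℕ) → (ℕ → Bool) → (Fin n → ι) → ℂ → ℝ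
  | 0, _, _, x => 1 / ‖x‖
  | n + 1, e, u, x => 1 / ‖x‖ + Sx A N n (fun k => e (k + 1)) (fun k => u k.succ)
      (lin (A (u 0) * (if e 0 then U N else 1))⁻¹ x)

/-- insertion patterns with at most two insertions in `M` consecutive steps -/
def Sparse (M : ℕ) (e : ℕ → Bool) : Prop :=
  ∀ m : ℕ, ((Finset.range M).filter (fun k => e (m + k) = true)).card ≤ 2

/-! ### the boundary circle of the disc model -/

/-- entries of the conjugate of `g` by the Cayley transform `z ↦ (z - i)/(z + i)` -/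
def alpha (g : SL(2, ℝ)) : ℂ := ⟨(g 0 0 + g 1 1) / 2, (g 0 1 - g 1 0) / 2⟩
def beta (g : SL(2, ℝ)) : ℂ := ⟨(g 0 0 - g 1 1) / 2, -((g 0 1 + g 1 0) / 2)⟩

/-- the denominator of the Möbius map of the closed unit disc -/
def bden (g : SL(2, ℝ)) (ζ : ℂ) : ℂ := (starRingEnd ℂ) (beta g) * ζ + (starRingEnd ℂ) (alpha g)

/-- the unit vector `z` represents the boundary point `conj z ^ 2` of the disc model -/
def bpt (z : S1) : S1 := ⟨(starRingEnd ℂ) (z : ℂ) ^ 2, by simp⟩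

/-- the key identity -/
lemma bden_bpt (g : SL(2, ℝ)) (z : S1) : bden g (bpt z) * (z : ℂ) = lin g z := by
  have hz : (z : ℂ).re ^ 2 + (z : ℂ).im ^ 2 = 1 := by
    have := S1_norm z
    have h2 : ‖(z : ℂ)‖ ^ 2 = 1 := by rw [this]; norm_num
    rw [Complex.sq_norm, Complex.normSq_apply] at h2
    nlinarith
  unfold bden bpt alpha beta lin
  apply Complex.ext
  · simp [pow_two]
    linear_combination ((g 0 0 - g 1 1) / 2 * (z : ℂ).re + (g 0 1 + g 1 0) / 2 * (z : ℂ).im) * hz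
  · simp [pow_two]
    linear_combination ((g 0 1 + g 1 0) / 2 * (z : ℂ).re - (g 0 0 - g 1 1) / 2 * (z : ℂ).im) * hz

lemma bpt_surjective : Function.Surjective bpt := by
  intro ζ
  obtain ⟨z, hz⟩ : ∃ z : ℂ, z ^ 2 = (ζ : ℂ) := ⟨(ζ : ℂ) ^ ((1 : ℂ) / 2), by
    rw [← Complex.cpow_nat_mul]; simp⟩
  have hn : ‖z‖ = 1 := by
    have h := congrArg norm hz
    rw [norm_pow, S1_norm] at h
    exact (pow_eq_one_iff_of_nonneg (norm_nonneg z) (by norm_num)).1 h
  refine ⟨⟨(starRingEnd ℂ) z, by simp [hn]⟩, ?_⟩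
  apply Subtype.ext
  simp [bpt, hz]

lemma bden_ne_zero (g : SL(2, ℝ)) (ζ : S1) : bden g ζ ≠ 0 := by
  obtain ⟨z, rfl⟩ := bpt_surjective ζ
  intro h
  have := bden_bpt g z
  rw [h, zero_mul] at this
  exact lin_ne_zero (S1_ne_zero z) this.symm

lemma norm_bden_bpt (g : SL(2, ℝ)) (z : S1) : ‖bden g (bpt z)‖ = ‖lin g (z : ℂ)‖ := by
  rw [← bden_bpt, norm_mul, S1_norm, mul_one]

lemma bnum_eq (g : SL(2, ℝ)) (z : S1) :
    (alpha g * (bpt z : ℂ) + beta g) * (z : ℂ) = (starRingEnd ℂ) (lin g z) := by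
  have hz : (z : ℂ).re ^ 2 + (z : ℂ).im ^ 2 = 1 := by
    have := S1_norm z
    have h2 : ‖(z : ℂ)‖ ^ 2 = 1 := by rw [this]; norm_num
    rw [Complex.sq_norm, Complex.normSq_apply] at h2
    nlinarith
  unfold bpt alpha beta lin
  apply Complex.ext
  · simp [pow_two]
    linear_combination ((g 0 0 + g 1 1) / 2 * (z : ℂ).re + (g 0 1 - g 1 0) / 2 * (z : ℂ).im) * hz
  · simp [pow_two]
    linear_combination ((g 0 1 - g 1 0) / 2 * (z : ℂ).re - (g 0 0 + g 1 1) / 2 * (z : ℂ).im) * hz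

/-- the Möbius action on the boundary circle of the disc model -/
def bmap (g : SL(2, ℝ)) (ζ : S1) : S1 :=
  ⟨(alpha g * (ζ : ℂ) + beta g) / bden g ζ, by
    obtain ⟨z, rfl⟩ := bpt_surjective ζ
    have h1 : ‖alpha g * (bpt z : ℂ) + beta g‖ = ‖lin g (z : ℂ)‖ := by
      have := congrArg norm (bnum_eq g z)
      rwa [norm_mul, S1_norm, mul_one, RCLike.norm_conj] at this
    have h2 : ‖lin g (z : ℂ)‖ ≠ 0 := by simpa using lin_ne_zero (S1_ne_zero z)
    rw [mem_sphere_zero_iff_norm, norm_div, h1, norm_bden_bpt, div_self h2]⟩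

/-- modulus of the derivative of the Möbius action on the boundary circle -/
def bjac (g : SL(2, ℝ)) (ζ : S1) : ℝ := 1 / ‖bden g ζ‖ ^ 2

lemma bmap_bpt (g : SL(2, ℝ)) (z : S1) : bmap g (bpt z) = bpt (circ g z) := by
  apply Subtype.ext
  have h0 : (z : ℂ) ≠ 0 := S1_ne_zero z
  have h2 : lin g (z : ℂ) ≠ 0 := lin_ne_zero h0
  have h3 : (‖lin g (z : ℂ)‖ : ℂ) ≠ 0 := by simpa using h2
  have e1 : ((bmap g (bpt z) : S1) : ℂ) = (starRingEnd ℂ) (lin g z) / lin g z := by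
    have hb := bden_ne_zero g (bpt z)
    show (alpha g * (bpt z : ℂ) + beta g) / bden g (bpt z) = _
    rw [← bnum_eq, ← bden_bpt]
    field_simp
  have e2 : ((bpt (circ g z) : S1) : ℂ) = (starRingEnd ℂ) (lin g z / (‖lin g z‖ : ℂ)) ^ 2 := rfl
  rw [e1, e2, map_div₀, Complex.conj_ofReal, div_pow]
  have h4 : (‖lin g (z : ℂ)‖ : ℂ) ^ 2 = (starRingEnd ℂ) (lin g z) * lin g z := by
    rw [mul_comm, Complex.mul_conj, ← Complex.ofReal_pow, Complex.sq_norm]
  have h5 : (starRingEnd ℂ) (lin g (z : ℂ)) ≠ 0 := by simpa using h2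
  rw [h4]
  field_simp

lemma bjac_bpt (g : SL(2, ℝ)) (z : S1) : bjac g (bpt z) = 1 / ‖lin g (z : ℂ)‖ ^ 2 := by
  rw [bjac, norm_bden_bpt]

lemma bmap_one (ζ : S1) : bmap 1 ζ = ζ := by
  obtain ⟨z, rfl⟩ := bpt_surjective ζ
  rw [bmap_bpt, circ_one]

lemma bmap_mul (g h : SL(2, ℝ)) (ζ : S1) : bmap (g * h) ζ = bmap g (bmap h ζ) := by
  obtain ⟨z, rfl⟩ := bpt_surjective ζ
  rw [bmap_bpt, bmap_bpt, bmap_bpt, circ_mul]

lemma continuous_bden (g : SL(2, ℝ)) : Continuous fun ζ : S1 => bden g ζ := by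
  unfold bden; fun_prop

lemma continuous_bmap (g : SL(2, ℝ)) : Continuous (bmap g) := by
  apply Continuous.subtype_mk
  exact Continuous.div (by fun_prop) (continuous_bden g) (bden_ne_zero g)

lemma measurable_bmap (g : SL(2, ℝ)) : Measurable (bmap g) := (continuous_bmap g).measurable

lemma continuous_bjac (g : SL(2, ℝ)) : Continuous (bjac g) := by
  refine Continuous.div continuous_const ((continuous_bden g).norm.pow 2) ?_
  intro ζ
  have := bden_ne_zero g ζ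
  positivity

lemma bjac_pos (g : SL(2, ℝ)) (ζ : S1) : 0 < bjac g ζ := by
  have := bden_ne_zero g ζ
  unfold bjac
  positivity

/-- stationary measures on the boundary circle -/
def BStat (w : ι → ℝ) (A : ι → SL(2, ℝ)) (ν : Measure S1) : Prop :=
  IsProbabilityMeasure ν ∧ (∑ i, ENNReal.ofReal (w i) • ν.map (bmap (A i))) = ν

end

end Pool.Agent.Helper97.Fuchs
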