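import Pool.Agent.Helper97.Fuchs.Defs2

/-!
# Random walks on Fuchsian groups: definitions for the insertion argument
-/

namespace Pool.Agent.Helper97.Fuchs

open MeasureTheory Matrix UpperHalfPlane Filter Topology
open scoped MatrixGroups ENNReal BigOperators

noncomputable section

variable {ι : Type} [Fintype ι]

/-- number of insertions that take place inside the horoball coset of `a` -/
def hits (A : ι → SL(2, ℝ)) (N : ℝ) : (n : ℕ) → (ℕ → Bool) → (Fin n → ι) → SL(2, ℝ) → ℕ
  | 0, _, _, _ => 0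
  | n + 1, e, u, a =>
      (open Classical in if e 0 = true ∧ (a⁻¹ * A (u 0)) 1 0 = 0 then 1 else 0) +
      hits A N n (fun k => e (k + 1)) (fun k => u k.succ)
        ((A (u 0) * (if e 0 then U N else 1))⁻¹ * a)

/-- the weight of a group element inside its coset modulo the unipotents -/
def om (a : SL(2, ℝ)) : ℝ := 1 / (1 + |rp a⁻¹|) ^ 2

/-- `l` windows of length `M`; in window `j` the insertion takes place after letter `τ j` -/
def pat (M l : ℕ) (τ : Fin l → Fin M) (k : ℕ) : Bool :=
  if h : k / M < l then decide (k % M = (τ ⟨k / M, h⟩ : ℕ)) else false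

/-- the product of the first `k` letters -/
def pre (A : ι → SL(2, ℝ)) {n : ℕ} (u : Fin n → ι) (k : ℕ) : SL(2, ℝ) :=
  ((List.ofFn fun j => A (u j)).take k).prod

/-- weights on (letters) × (positions) -/
def wtIns (w : ι → ℝ) (M l : ℕ) (p : (Fin (l * M) → ι) × (Fin l → Fin M)) : ℝ :=
  wt w p.1 / (M : ℝ) ^ l

/-- natural positions at the insertion times -/
def Vpos (A : ι → SL(2, ℝ)) (M l : ℕ) (p : (Fin (l * M) → ι) × (Fin l → Fin M)) (j : Fin l) :
    SL(2, ℝ) := pre A p.1 ((j : ℕ) * M + (p.2 j : ℕ) + 1)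

/-- the modified walk -/
def Wins (A : ι → SL(2, ℝ)) (N : ℝ) (M l : ℕ) (p : (Fin (l * M) → ι) × (Fin l → Fin M)) :
    SL(2, ℝ) := wordIns A N (l * M) (pat M l p.2) p.1

end

end Pool.Agent.Helper97.Fuchs
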