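import Pool.Agent.Helper97.Fuchs.Gap

/-!
# Random walks on Fuchsian groups: final assembly
-/

namespace Pool.Agent.Helper97.Fuchs

open MeasureTheory Matrix UpperHalfPlane Filter Topology
open scoped MatrixGroups ENNReal BigOperators
open H11 (conj_inv ent_cost ent_limit ent_lower ent_upper Hs_nonneg)
open H5 (noinv_of)
open H30 (comap_closure exists_lift)

noncomputable section

section

variable {ι : Type} [Fintype ι]

theorem lim_grp (A : ι → SL(2, ℝ)) (An : ℕ → ι → SL(2, ℝ))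
    (hA : ∀ i, Tendsto (fun n => An n i) atTop (𝓝 (A i))) :
    ∀ g ∈ grp A, ∃ gn : ℕ → SL(2, ℝ), (∀ n, gn n ∈ grp (An n)) ∧ Tendsto gn atTop (𝓝 g) := by
  intro g hg
  unfold grp at hg
  induction hg using Subgroup.closure_induction with
  | mem x hx =>
    rcases hx with ⟨i, rfl⟩ | hx
    · exact ⟨fun n => An n i, fun n => mem_grp _ _, hA i⟩
    · rw [Set.mem_singleton_iff] at hx
      subst hx
      exact ⟨fun _ => -1, fun n => neg_one_mem_grp _, tendsto_const_nhds⟩
  | one => exact ⟨fun _ => 1, fun n => one_mem _, tendsto_const_nhds⟩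
  | mul x y _ _ hx hy =>
    obtain ⟨xn, hx1, hx2⟩ := hx
    obtain ⟨yn, hy1, hy2⟩ := hy
    exact ⟨fun n => xn n * yn n, fun n => mul_mem (hx1 n) (hy1 n), hx2.mul hy2⟩
  | inv x _ hx =>
    obtain ⟨xn, hx1, hx2⟩ := hx
    exact ⟨fun n => (xn n)⁻¹, fun n => inv_mem (hx1 n), hx2.inv⟩

/-- numerical choice of the error -/
lemma choose_eps {lam h c : ℝ} (hlam : 0 < lam) (hh : 0 ≤ h) (hc : 0 < c) :
    ∃ s s' e : ℝ, 0 < e ∧ 0 ≤ s' ∧ s' < s ∧ 2 * lam * s < h + c ∧
      h + e < 2 * s' * (lam - 2 * e) := by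
  refine ⟨(h + c / 2) / (2 * lam), (h + c / 4) / (2 * lam),
    c / (8 * (1 + 4 * ((h + c / 4) / (2 * lam)))), ?_, ?_, ?_, ?_, ?_⟩
  · have : 0 ≤ (h + c / 4) / (2 * lam) := by positivity
    positivity
  · positivity
  · apply div_lt_div_of_pos_right _ (by positivity)
    linarith
  · have : 2 * lam * ((h + c / 2) / (2 * lam)) = h + c / 2 := by field_simp
    rw [this]; linarith
  · set s' := (h + c / 4) / (2 * lam) with hs'
    have h1 : 2 * s' * lam = h + c / 4 := by rw [hs']; field_simp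
    have h0 : 0 ≤ s' := by rw [hs']; positivity
    set e := c / (8 * (1 + 4 * s')) with he
    have h2 : e * (1 + 4 * s') = c / 8 := by rw [he]; field_simp
    nlinarith

end

/-- critical exponents are bounded below by non-summable exponents -/
lemma le_criticalExponent (Γ : Subgroup PSL(2, ℝ)) {ε : ℝ}
    (hd : Disc ε (Γ.comap (QuotientGroup.mk' (Subgroup.center SL(2, ℝ))))) {s' : ℝ}
    (hns : ¬ Summable fun g : Γ.comap (QuotientGroup.mk' (Subgroup.center SL(2, ℝ))) =>
      nrm (g : SL(2, ℝ)) ^ (-(2 * s'))) : s' ≤ criticalExponent Γ := by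
  unfold criticalExponent
  refine le_csInf ⟨5, by norm_num, ?_⟩ ?_
  · rw [exponent_iff Γ 5 (by norm_num)]
    exact summable_large hd
  · rintro s ⟨hs0, hs⟩
    rw [exponent_iff Γ s hs0] at hs
    by_contra hc
    have hc' : s < s' := lt_of_not_ge hc
    apply hns
    refine Summable.of_nonneg_of_le (fun g => by have := nrm_nonneg (g : SL(2, ℝ)); positivity)
      (fun g => ?_) hs
    exact Real.rpow_le_rpow_of_exponent_le (one_le_nrm _) (by linarith)

theorem final (Γ : ℕ → Subgroup PSL(2, ℝ)) (Γ' : Subgroup PSL(2, ℝ))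
    (S : ℕ → Finset PSL(2, ℝ)) (S' : Finset PSL(2, ℝ))
    (μ : ℕ → PMF PSL(2, ℝ)) (μ' : PMF PSL(2, ℝ))
    (hΓ' : Fuchsian Γ') (hlat : FiniteCovolume Γ')
    (hconv : ChabautyTendsto Γ Γ')
    (hS : ∀ n, Subgroup.closure (S n : Set PSL(2, ℝ)) = Γ n)
    (hS' : Subgroup.closure (S' : Set PSL(2, ℝ)) = Γ')
    (hSconv : HausdorffTendsto S S')
    (hμ : ∀ n, (μ n).support = (S n : Set PSL(2, ℝ))) (hμ' : μ'.support = (S' : Set PSL(2, ℝ)))
    (hμconv : ∀ s : ℕ → PSL(2, ℝ), (∀ n, s n ∈ S n) → ∀ s' ∈ S', Tendsto s atTop (𝓝 s') →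
      Tendsto (fun n => μ n (s n)) atTop (𝓝 (μ' s')))
    (hinf : ∀ᶠ n in atTop, ¬ FiniteCovolume (Γ n)) (o : ℍ) :
    ∀ᶠ n in atTop, (∃ ν, IsHittingMeasure o (μ n) ν) ∧
      ∀ (ν κ : Measure S1) (δ : ℝ), IsHittingMeasure o (μ n) ν → IsFiniteMeasure κ →
        criticalExponent (Γ n) ≤ δ → IsConformal (Γ n) δ κ → ν ⟂ₘ κ := by
  classical
  set P := QuotientGroup.mk' (Subgroup.center SL(2, ℝ)) with hP
  obtain ⟨ε, hd', hdn⟩ := unif_disc hΓ' hconv
  obtain ⟨A, An, hA, hAn, hinjr⟩ := exists_lift hS hSconv hdn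
  -- the groups
  have hgrp : grp A = Γ'.comap P := by
    rw [← comap_closure A]
    congr 1
    rw [← hS']
    congr 1
    ext g
    constructor
    · rintro ⟨i, rfl⟩
      simp only [hA]
      exact i.2
    · intro hg
      exact ⟨⟨g, hg⟩, hA _⟩
  have hgrpn : ∀ᶠ n in atTop, grp (An n) = (Γ n).comap P := by
    filter_upwards [hinjr] with n hn
    rw [← comap_closure (An n), hn.2, hS n]
  have hd : Disc ε (grp A) := by rw [hgrp]; exact hd'
  have hdn' : ∀ᶠ n in atTop, Disc ε (grp (An n)) := by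
    filter_upwards [hgrpn, hdn] with n h1 h2
    rw [h1]; exact h2
  -- weights
  let w : S' → ℝ := fun i => (μ' i).toReal
  let wn : ℕ → S' → ℝ := fun n i => (μ n (QuotientGroup.mk (An n i))).toReal
  have hwn : ∀ᶠ n in atTop, IsWt (wn n) ∧
      ∀ i, μ n (QuotientGroup.mk (An n i)) = ENNReal.ofReal (wn n i) := by
    filter_upwards [hinjr] with n hn
    have hfin : ∀ i, μ n (QuotientGroup.mk (An n i)) ≠ ∞ := fun i => PMF.apply_ne_top _ _
    refine ⟨⟨fun i => ?_, ?_⟩, fun i => ?_⟩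
    · apply ENNReal.toReal_pos _ (hfin i)
      have : (QuotientGroup.mk (An n i) : PSL(2, ℝ)) ∈ (μ n).support := by
        rw [hμ n, ← hn.2]; exact ⟨i, rfl⟩
      exact this
    · show ∑ i, (μ n (QuotientGroup.mk (An n i))).toReal = 1
      rw [← ENNReal.toReal_sum (fun i _ => hfin i)]
      have h1 : ∑ i, μ n (QuotientGroup.mk (An n i) : PSL(2, ℝ)) = ∑ s ∈ S n, μ n s := by
        have himg : S n = Finset.univ.image (fun i => (QuotientGroup.mk (An n i) : PSL(2, ℝ))) := by
          apply Finset.coe_injective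
          rw [← hn.2]; simp
        rw [himg, Finset.sum_image (fun x _ y _ h => hn.1 h)]
      have h2 : ∑ s ∈ S n, μ n s = 1 := by
        rw [← (μ n).tsum_coe]
        symm
        apply tsum_eq_sum
        intro s hs
        rw [PMF.apply_eq_zero_iff, hμ n]
        simpa using hs
      rw [h1, h2]; simp
    · exact (ENNReal.ofReal_toReal (hfin i)).symm
  have hw : IsWt w := by
    refine ⟨fun i => ?_, ?_⟩
    · apply ENNReal.toReal_pos _ (PMF.apply_ne_top _ _)
      have : (i : PSL(2, ℝ)) ∈ μ'.support := by rw [hμ']; exact i.2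
      exact this
    · show ∑ i : S', (μ' i).toReal = 1
      rw [← ENNReal.toReal_sum (fun i _ => PMF.apply_ne_top _ _)]
      have h1 : ∑ i : S', μ' (i : PSL(2, ℝ)) = ∑ s ∈ S', μ' s :=
        Finset.sum_coe_sort S' (fun s => μ' s)
      have h2 : ∑ s ∈ S', μ' s = 1 := by
        rw [← μ'.tsum_coe]
        symm
        apply tsum_eq_sum
        intro s hs
        rw [PMF.apply_eq_zero_iff, hμ']
        simpa using hs
      rw [h1, h2]; simp
  have hwlim : ∀ i, Tendsto (fun n => wn n i) atTop (𝓝 (w i)) := by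
    intro i
    -- modify the sequence at the finitely many bad indices
    have hne : ∀ n, ∃ s, s ∈ S n := by
      intro n
      obtain ⟨s, hs⟩ := (μ n).support_nonempty
      exact ⟨s, by rw [hμ n] at hs; exact hs⟩
    choose d hd using hne
    let t : ℕ → PSL(2, ℝ) := fun n =>
      if (QuotientGroup.mk (An n i) : PSL(2, ℝ)) ∈ S n then QuotientGroup.mk (An n i) else d n
    have ht : ∀ n, t n ∈ S n := by
      intro n
      by_cases h : (QuotientGroup.mk (An n i) : PSL(2, ℝ)) ∈ S n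
      · simp only [t, if_pos h]; exact h
      · simp only [t, if_neg h]; exact hd n
    have hte : ∀ᶠ n in atTop, t n = QuotientGroup.mk (An n i) := by
      filter_upwards [hinjr] with n hn
      have : (QuotientGroup.mk (An n i) : PSL(2, ℝ)) ∈ S n := by
        have : (QuotientGroup.mk (An n i) : PSL(2, ℝ)) ∈ (S n : Set PSL(2, ℝ)) := by
          rw [← hn.2]; exact ⟨i, rfl⟩
        exact this
      simp only [t, if_pos this]
    have htlim : Tendsto t atTop (𝓝 (i : PSL(2, ℝ))) := by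
      have h1 : Tendsto (fun n => (QuotientGroup.mk (An n i) : PSL(2, ℝ))) atTop
          (𝓝 (QuotientGroup.mk (A i))) :=
        (QuotientGroup.continuous_mk.tendsto _).comp (hAn i)
      rw [hA i] at h1
      refine h1.congr' ?_
      filter_upwards [hte] with n hn
      rw [hn]
    have h2 := hμconv t ht i i.2 htlim
    have h3 := (ENNReal.tendsto_toReal (PMF.apply_ne_top μ' i)).comp h2
    refine h3.congr' ?_
    filter_upwards [hte] with n hn
    show (μ n (t n)).toReal = _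
    rw [hn]
  -- the limit group is not cocompact
  have hcovA : ∃ F : Set ℍ, MeasurableSet F ∧ volume F < ∞ ∧ ∀ z : ℍ, ∃ g ∈ grp A, g • z ∈ F := by
    obtain ⟨F, hF, hvol, hcov⟩ := hlat
    refine ⟨F, hF, hvol, fun z => ?_⟩
    obtain ⟨g, hg, hgz⟩ := hcov z
    refine ⟨Quotient.out g, ?_, ?_⟩
    · rw [hgrp, Subgroup.mem_comap]
      have : P (Quotient.out g) = g := Quotient.out_eq g
      rw [this]; exact hg
    · exact hgz
  obtain ⟨F, hF, hvol, hcov⟩ := hcovA
  have hnc : ¬ ∃ R : ℝ, ∀ z : ℍ, ∃ g ∈ grp A, dist z (g • I) ≤ R := by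
    intro hR
    have h1 := cocompact_open hd (lim_grp A An hAn) hR
    obtain ⟨n, h2, h3, h4⟩ := (h1.and (hgrpn.and hinf)).exists
    apply h4
    obtain ⟨R, hR'⟩ := h2
    refine ⟨Metric.closedBall I R, Metric.isClosed_closedBall.measurableSet,
      (isCompact_closedBall I R).measure_lt_top, fun z => ?_⟩
    obtain ⟨g, hg, hgz⟩ := hR' z
    refine ⟨(QuotientGroup.mk g)⁻¹, ?_, ?_⟩
    · apply inv_mem
      have : g ∈ (Γ n).comap P := by rw [← h3]; exact hg
      exact this
    · have : (QuotientGroup.mk g : PSL(2, ℝ))⁻¹ = QuotientGroup.mk (g⁻¹) := rfl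
      rw [this, actH_mk, Metric.mem_closedBall]
      rw [← dist_smul g (g⁻¹ • z) I, smul_inv_smul]
      exact hgz
  push Not at hnc
  obtain ⟨p, hp, hp1, hptr⟩ := exists_parabolic hd F hF hvol hcov hnc
  obtain ⟨hN, hsep, h, hU, -⟩ := noinv_of A hd F hF hvol hcov ⟨p, hp, hp1, hptr⟩
  obtain ⟨c, hc, hgap⟩ := gap w A hw hd hN ⟨h, hU⟩
  have hlam := (unif_growth w A hw hN).1
  obtain ⟨s, s', e, he, hs'0, hs's, hsc, hse⟩ := choose_eps hlam (hent_nonneg hw A) hc
  have hns : ¬ Summable fun g : grp A => nrm (g : SL(2, ℝ)) ^ (-(2 * s)) := by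
    intro hsum
    have := hgap s (by linarith) hsum
    linarith
  have hexp := exponent_lsc hd (lim_grp A An hAn) hsep hs'0 hs's hns
  -- negative moments
  obtain ⟨K, hK, s₀, hs₀, hneg⟩ := neg_moment w A hw hN e he
  have hneg1 := hneg s₀ hs₀ le_rfl
  have hKpos : (0 : ℝ) < K := by exact_mod_cast hK
  have hnegn := neg_moment_perturb w A wn An hwlim hAn K s₀ (Real.exp (-(s₀ * (lam w A - e) * K)))
    (Real.exp (-(s₀ * (lam w A - 2 * e) * K))) hs₀ (by
      apply Real.exp_lt_exp.2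
      have : 0 < s₀ * e * K := by positivity
      nlinarith) hneg1
  -- entropy
  obtain ⟨K', hK', hentK⟩ : ∃ K' : ℕ, 1 ≤ K' ∧ HW w A K' < (hent w A + e / 2) * K' := by
    have h1 : hent w A < hent w A + e / 2 := by linarith
    obtain ⟨n, hn⟩ := exists_lt_of_ciInf_lt (a := hent w A + e / 2)
      (f := fun n : ℕ => HW w A (n + 1) / (n + 1)) h1
    refine ⟨n + 1, by omega, ?_⟩
    have hp : (0 : ℝ) < (n : ℝ) + 1 := by positivity
    rw [div_lt_iff₀ hp] at hn
    push_cast
    exact hn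
  have hK'pos : (0 : ℝ) < K' := by exact_mod_cast hK'
  have hentn := ent_limit w A wn An hw hwlim hAn hdn' K' (δ := e / 2 * K') (by positivity)
  have hlam2 : 0 < lam w A - 2 * e := by
    by_contra hcon
    have h1 : lam w A - 2 * e ≤ 0 := le_of_not_gt hcon
    have h2 : 2 * s' * (lam w A - 2 * e) ≤ 0 :=
      mul_nonpos_of_nonneg_of_nonpos (by linarith) h1
    have := hent_nonneg hw A
    linarith
  filter_upwards [hinjr, hgrpn, hdn, hwn, hexp, hnegn, hentn] with n h1 h2 h3 h4 h5 h6 h7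
  have hq : Real.exp (-(s₀ * (lam w A - 2 * e) * K)) < 1 := by
    rw [Real.exp_lt_one_iff]
    have : 0 < s₀ * (lam w A - 2 * e) * K := by positivity
    linarith
  obtain ⟨hex, hst⟩ := hitting (wn n) (An n) h4.1 (μ n) h4.2 h1.1 hK hs₀ hq h6 o
  refine ⟨hex, ?_⟩
  intro ν κ δ hν hκf hδ hκ
  have hδn : s' ≤ δ := by
    refine (le_criticalExponent (Γ n) h3 ?_).trans hδ
    rw [← h2]; exact h5
  have hst' := hst ν hν
  refine singular_of (wn n) (An n) h4.1 hK hK' (s := s₀) (t := lam w A - 2 * e)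
    (h := hent w A + e) (δ := δ) hs₀ h6 ?_ (by linarith) ?_ hst' ?_
  · calc HW (wn n) (An n) K' ≤ HW w A K' + e / 2 * K' := h7
      _ < (hent w A + e / 2) * K' + e / 2 * K' := by linarith
      _ = (hent w A + e) * K' := by ring
  · calc hent w A + e < 2 * s' * (lam w A - 2 * e) := hse
      _ ≤ 2 * δ * (lam w A - 2 * e) := by
          apply mul_le_mul_of_nonneg_right _ hlam2.le
          linarith
  · intro g hg E hE
    refine hκ g ?_ E hE
    have : g ∈ (Γ n).comap P := by rw [← h2]; exact hg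
    exact this

end

end Pool.Agent.Helper97.Fuchs
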