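import Pool.Agent.Helper97.Fuchs.Glue

/-!
# Random walks on Fuchsian groups: the strict inequality, assembly
-/

namespace Pool.Agent.Helper97.Fuchs

open MeasureTheory Matrix UpperHalfPlane Filter Topology
open scoped MatrixGroups ENNReal BigOperators
open H11 (conj_inv ent_cost ent_limit ent_lower ent_upper Hs_nonneg)
open H5 (noinv_of)
open H30 (comap_closure exists_lift)

noncomputable section

variable {ι : Type} [Fintype ι]

lemma hent_bdd {w : ι → ℝ} (hw : IsWt w) (A : ι → SL(2, ℝ)) :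
    BddBelow (Set.range fun n : ℕ => HW w A (n + 1) / (n + 1)) := by
  refine ⟨0, ?_⟩
  rintro _ ⟨n, rfl⟩
  have : 0 ≤ HW w A (n + 1) :=
    Hs_nonneg _ (fun u => wt_nonneg hw.nonneg u) (sum_wt hw.sum _) _
  positivity

lemma hent_nonneg {w : ι → ℝ} (hw : IsWt w) (A : ι → SL(2, ℝ)) : 0 ≤ hent w A := by
  refine le_ciInf fun n => ?_
  have : 0 ≤ HW w A (n + 1) :=
    Hs_nonneg _ (fun u => wt_nonneg hw.nonneg u) (sum_wt hw.sum _) _
  positivity

lemma hent_le {w : ι → ℝ} (hw : IsWt w) (A : ι → SL(2, ℝ)) {n : ℕ} (hn : 1 ≤ n) :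
    hent w A * n ≤ HW w A n := by
  obtain ⟨m, rfl⟩ : ∃ m, n = m + 1 := ⟨n - 1, by omega⟩
  have h := ciInf_le (hent_bdd hw A) m
  have hp : (0 : ℝ) < (m : ℝ) + 1 := by positivity
  have h2 : hent w A ≤ HW w A (m + 1) / (m + 1) := h
  rw [le_div_iff₀ hp] at h2
  push_cast
  exact h2

/-- for fixed summable exponent `s ≤ 5` -/
theorem strict_gap' (w : ι → ℝ) (A : ι → SL(2, ℝ)) (hw : IsWt w) {ε : ℝ} (hd : Disc ε (grp A))
    (hU : U 1 ∈ grp A) (hN : NoInv A) :
    ∃ c : ℝ, 0 < c ∧ ∀ s : ℝ, 0 ≤ s →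
      (Summable fun g : grp A => nrm (g : SL(2, ℝ)) ^ (-(2 * s))) →
      hent w A + c ≤ 2 * lam w A * s := by
  obtain ⟨C', hL'⟩ := L_le w A hw hN
  set C : ℝ := max C' 0 with hC
  have hC0 : 0 ≤ C := le_max_right _ _
  have hL : ∀ n : ℕ, L w A n ≤ lam w A * n + C := fun n =>
    (hL' n).trans (by have := le_max_left C' 0; linarith)
  obtain ⟨G, hG⟩ := ret_bound w A hw hN
  obtain ⟨C₀, N₀, hdec⟩ := decode w A hw hd hU hN 12 (by norm_num)
  have hlam := (unif_growth w A hw hN).1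
  -- choice of N
  obtain ⟨N, hN0, hN2, hNbig⟩ : ∃ N : ℕ, N₀ ≤ N ∧ 2 ≤ N ∧
      10 * C + 2 * G + C₀ + 1 + 10 * Real.log 2 ≤ 2 * Real.log N := by
    have h1 : Tendsto (fun N : ℕ => 2 * Real.log N) atTop atTop :=
      (Real.tendsto_log_atTop.comp tendsto_natCast_atTop_atTop).const_mul_atTop (by norm_num)
    obtain ⟨N, hN⟩ := ((h1.eventually_ge_atTop (10 * C + 2 * G + C₀ + 1 + 10 * Real.log 2)).and
      (eventually_ge_atTop (max N₀ 2))).exists
    exact ⟨N, (le_max_left _ _).trans hN.2, (le_max_right _ _).trans hN.2, hN.1⟩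
  obtain ⟨q, hq0, hqpos, hq1, hq⟩ := hdec N hN0
  set M : ℕ := N ^ 12 with hM
  have hM1 : 1 ≤ M := Nat.one_le_pow _ _ (by omega)
  have hMpos : (0 : ℝ) < M := by exact_mod_cast hM1
  have hNr : (2 : ℝ) ≤ N := by exact_mod_cast hN2
  have hlogM : Real.log M = 12 * Real.log N := by
    rw [hM]; push_cast; rw [Real.log_pow]; norm_num
  have hlogN2 : Real.log ((N : ℝ) + 2) ≤ Real.log N + Real.log 2 := by
    rw [← Real.log_mul (by positivity) (by norm_num)]
    exact Real.log_le_log (by positivity) (by linarith)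
  have hlog0 : 0 ≤ Real.log ((N : ℝ) + 2) := Real.log_nonneg (by linarith)
  have key : ∀ s : ℝ, 0 ≤ s → s ≤ 5 →
      (Summable fun g : grp A => nrm (g : SL(2, ℝ)) ^ (-(2 * s))) →
      hent w A + 1 / M ≤ 2 * lam w A * s := by
    intro s hs hs5 hsum
    set X : ℝ := hent w A * M + Real.log M - 2 * G -
      2 * s * (lam w A * M + C + Real.log (N + 2)) - C₀ with hX
    set K : ℝ := 2 * s * C + Real.log (∑' g : grp A, nrm (g : SL(2, ℝ)) ^ (-(2 * s))) with hK
    have hl : ∀ l : ℕ, 1 ≤ l → l * X ≤ K := by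
      intro l hl1
      have e1 := hent_le hw A (n := l * M) (Nat.mul_pos hl1 hM1)
      have e2 := ent_lower w A hw hG M l hM1
      have e3 := ent_upper w A hw hM1 hU q hq0 hqpos hq1 hq l
      have e4 := ent_cost w A hw hU hL hC0 hs hsum N M l hM1
      push_cast at e1 e4
      have : hent w A * (l * M) + l * (Real.log M - 2 * G) ≤
        2 * s * (lam w A * (l * M) + (l + 1) * C + l * Real.log (N + 2)) +
        Real.log (∑' g : grp A, nrm (g : SL(2, ℝ)) ^ (-(2 * s))) + l * C₀ := by linarith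
      rw [hX, hK]
      nlinarith
    have hX0 : X ≤ 0 := by
      by_contra hc
      have hc' : 0 < X := lt_of_not_ge hc
      obtain ⟨l, hl2⟩ := exists_nat_gt (K / X)
      have h1 : 1 ≤ l + 1 := by omega
      have h2 := hl (l + 1) h1
      rw [div_lt_iff₀ hc'] at hl2
      push_cast at h2
      nlinarith
    have hbr : 1 ≤ Real.log M - 2 * s * Real.log (N + 2) - 2 * s * C - 2 * G - C₀ := by
      have h1 : 2 * s * Real.log (N + 2) ≤ 10 * (Real.log N + Real.log 2) := by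
        calc 2 * s * Real.log (N + 2) ≤ 10 * Real.log (N + 2) := by
              apply mul_le_mul_of_nonneg_right _ hlog0; linarith
          _ ≤ _ := by linarith
      have h2 : 2 * s * C ≤ 10 * C := by
        apply mul_le_mul_of_nonneg_right _ hC0; linarith
      rw [hlogM]
      linarith
    have h3 : hent w A * M + 1 ≤ 2 * lam w A * s * M := by
      rw [hX] at hX0; nlinarith
    have h4 : (hent w A + 1 / M) * M ≤ (2 * lam w A * s) * M := by
      rw [add_mul, div_mul_cancel₀ _ hMpos.ne']; exact h3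
    exact le_of_mul_le_mul_right h4 hMpos
  refine ⟨1 / M, by positivity, ?_⟩
  intro s hs hsum
  by_cases h5 : s ≤ 5
  · exact key s hs h5 hsum
  · have h6 := key 5 (by norm_num) le_rfl (summable_large hd)
    have h7 : 2 * lam w A * 5 ≤ 2 * lam w A * s := by
      apply mul_le_mul_of_nonneg_left _ (by linarith)
      linarith
    linarith

/-- the strict inequality for a lattice with a parabolic element -/
theorem gap (w : ι → ℝ) (A : ι → SL(2, ℝ)) (hw : IsWt w) {ε : ℝ} (hd : Disc ε (grp A))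
    (hN : NoInv A) (hh : ∃ h : SL(2, ℝ), U 1 ∈ grp (fun i => h * A i * h⁻¹)) :
    ∃ c : ℝ, 0 < c ∧ ∀ s : ℝ, 0 ≤ s →
      (Summable fun g : grp A => nrm (g : SL(2, ℝ)) ^ (-(2 * s))) →
      hent w A + c ≤ 2 * lam w A * s := by
  obtain ⟨h, hU⟩ := hh
  obtain ⟨h1, h2, h3, h4, h5⟩ := conj_inv w A hw h
  obtain ⟨ε', hd'⟩ := h4 ε hd
  obtain ⟨c, hc, hgap⟩ := strict_gap' w (fun i => h * A i * h⁻¹) hw hd' hU (h3 hN)
  refine ⟨c, hc, fun s hs hsum => ?_⟩
  have := hgap s hs (h5 s hs hsum)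
  rwa [h1, h2] at this

end

end Pool.Agent.Helper97.Fuchs
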