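import Pool.Agent.Helper97.Fuchs.Unif
import Pool.Agent.Helper97.Fuchs.H11.Conj
import Pool.Agent.Helper97.Fuchs.H11.EntCost
import Pool.Agent.Helper97.Fuchs.H11.EntLimit
import Pool.Agent.Helper97.Fuchs.H11.EntLower
import Pool.Agent.Helper97.Fuchs.H11.EntUpper
import Pool.Agent.Helper97.Fuchs.H11.Entropy
import Pool.Agent.Helper97.Fuchs.H11.Return
import Pool.Agent.Helper24.Fuchs.C1
import Pool.Agent.Helper24.Fuchs.C2
import Pool.Agent.Helper24.Fuchs.E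
import Pool.Agent.Helper28.Fuchs.Parabolic
import Pool.Agent.Helper3.Fuchs.M1
import Pool.Agent.Helper3.Fuchs.M2
import Pool.Agent.Helper30.Fuchs.Decode
import Pool.Agent.Helper44.Fuchs.D1
import Pool.Agent.Helper47.Fuchs.Hitting
import Pool.Agent.Helper97.Fuchs.H5.CommuteSmall
import Pool.Agent.Helper97.Fuchs.H5.NonElem
import Pool.Agent.Helper97.Fuchs.H30.Lift
import Pool.Agent.Helper68.Fuchs.Count
import Pool.Agent.Helper76.Fuchs.Energy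
import Pool.Agent.Helper83.Fuchs.Chain
import Pool.Agent.Helper85.Fuchs.Singular
import Pool.Agent.Helper87.Fuchs.ExponentLsc
import Pool.Agent.Helper91.Fuchs.Area
import Pool.Agent.Helper91.Fuchs.Exponent

/-!
# Random walks on Fuchsian groups: all modules with their black boxes filled in
-/

namespace Pool.Agent.Helper97.Fuchs

open MeasureTheory Matrix UpperHalfPlane Filter Topology
open scoped MatrixGroups ENNReal BigOperators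

noncomputable section

variable {ι : Type} [Fintype ι]

theorem unif_growth (w : ι → ℝ) (A : ι → SL(2, ℝ)) (hw : IsWt w) (hA : NoInv A) :
    0 < lam w A ∧ ∀ ε : ℝ, 0 < ε → ∃ K : ℕ, 1 ≤ K ∧ ∀ z : ℂ, ‖z‖ = 1 →
      (lam w A - ε) * K ≤ (avg w A)^[K] (fun z => Real.log ‖z‖) z :=
  unif_growth_of w A hw hA (exists_stat_pos w A hw hA)

theorem neg_moment (w : ι → ℝ) (A : ι → SL(2, ℝ)) (hw : IsWt w) (hA : NoInv A) :
    ∀ ε : ℝ, 0 < ε → ∃ K : ℕ, 1 ≤ K ∧ ∃ s₀ : ℝ, 0 < s₀ ∧ ∀ s : ℝ, 0 < s → s ≤ s₀ →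
      ∀ z : ℂ, z ≠ 0 → (avg w A)^[K] (fun z => ‖z‖ ^ (-s)) z
        ≤ Real.exp (-(s * (lam w A - ε) * K)) * ‖z‖ ^ (-s) :=
  neg_moment_of w A hw (lam w A) (unif_growth w A hw hA).2

theorem L_le (w : ι → ℝ) (A : ι → SL(2, ℝ)) (hw : IsWt w) (hA : NoInv A) :
    ∃ C : ℝ, ∀ n : ℕ, L w A n ≤ lam w A * n + C :=
  L_le_of w A hw (unif_growth w A hw hA)

theorem chain_bounds (w : ι → ℝ) (A : ι → SL(2, ℝ)) (hw : IsWt w) {ε : ℝ} (hd : Disc ε (grp A))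
    (hU : U 1 ∈ grp A) (hN : NoInv A) :
    ∃ c C s ρ : ℝ, ∃ N₀ : ℕ, 0 < c ∧ 1 ≤ C ∧ 0 < s ∧ s ≤ 1 ∧ 0 < ρ ∧ ρ < 1 ∧
      ∀ N M : ℕ, N₀ ≤ N → N ≤ M → ∀ e : ℕ → Bool, Sparse M e → ∀ n : ℕ, ∀ g ∈ grp A,
        Ex w n (fun u => Real.exp (c * Sx A N n e u (lin g 1))) ≤ 2 ∧
        Ex w n (fun u => ‖lin (wordIns A N n e u)⁻¹ (lin g 1)‖ ^ (-s))
          ≤ C * ((N : ℝ) + 2) ^ (4 : ℕ) * ρ ^ n :=
  chain_bounds_of w A hw hU (unif_growth w _ hw (noInv_inv hN)).1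
    (neg_moment w _ hw (noInv_inv hN)) (shimizu hd hU)

theorem count_region {ε : ℝ} {Γ : Subgroup SL(2, ℝ)} (hd : Disc ε Γ) (hU : U 1 ∈ Γ) :
    ∃ C : ℝ, 1 ≤ C ∧
      (∀ R : ℝ, 1 ≤ R → (∑' a : Γ, open Classical in
        if ‖lin (a : SL(2, ℝ)) 1‖ ≤ R then ENNReal.ofReal (om (a : SL(2, ℝ))) else 0)
          ≤ ENNReal.ofReal (C * R ^ 8)) ∧
      (∀ g ∈ Γ, ∀ H : ℂ → ℝ≥0∞,
        ∑' a : Γ, ENNReal.ofReal (om (a : SL(2, ℝ))) * H (lin (g⁻¹ * (a : SL(2, ℝ))) 1)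
          ≤ ENNReal.ofReal C * ∑' a : Γ, ENNReal.ofReal (om (a : SL(2, ℝ))) *
              H (lin (a : SL(2, ℝ)) 1)) ∧
      (∀ g ∈ Γ, (∑' a : Γ, open Classical in
        if ((a : SL(2, ℝ))⁻¹ * g) 1 0 = 0 then ENNReal.ofReal (om (a : SL(2, ℝ))) else 0)
          ≤ ENNReal.ofReal C) :=
  count_region_of hd hU (shimizu hd hU)

theorem decode (w : ι → ℝ) (A : ι → SL(2, ℝ)) (hw : IsWt w) {ε : ℝ} (hd : Disc ε (grp A))
    (hU : U 1 ∈ grp A) (hN : NoInv A) (b : ℕ) (hb : 1 ≤ b) :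
    ∃ C₀ : ℝ, ∃ N₀ : ℕ, ∀ N : ℕ, N₀ ≤ N → ∃ q : SL(2, ℝ) → SL(2, ℝ) → ℝ,
      (∀ a X, 0 ≤ q a X) ∧ (∀ a ∈ grp A, ∀ X ∈ grp A, 0 < q a X) ∧
      (∀ X ∈ grp A, ∀ s : Finset SL(2, ℝ), (∀ a ∈ s, a ∈ grp A) → ∑ a ∈ s, q a X ≤ 1) ∧
      ∀ (n t : ℕ) (htn : t ≤ n) (e : ℕ → Bool), 1 ≤ t → t ≤ 2 * N ^ b →
        (∀ k < t - 1, e k = false) → e (t - 1) = true → Sparse (N ^ b) e →
        Ex w n (fun u => -Real.log (q (word A fun j : Fin t => u (Fin.castLE htn j))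
          (wordIns A N n e u))) ≤ C₀ :=
  decode_glue (fun hd hU => shimizu hd hU) (fun A {ε} hd hU => disp A hd hU)
    (fun w A hw {ε} hd hU hN => chain_bounds w A hw hd hU hN)
    (fun {ε Γ} hd hU => count_region hd hU) (fun {ε Γ} hd => summable_large hd)
    w A hw hd hU hN b hb

theorem ret_bound (w : ι → ℝ) (A : ι → SL(2, ℝ)) (hw : IsWt w) (hN : NoInv A) :
    ∃ G : ℝ, ∀ n : ℕ, (∑ k ∈ Finset.range n,
      Ex w k (fun u => open Classical in if word A u = 1 then 1 else 0)) ≤ G :=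
  H11.ret_bound_of_neg w A hw (unif_growth w A hw hN).1 (neg_moment w A hw hN)

theorem exists_parabolic {ε : ℝ} {Γ : Subgroup SL(2, ℝ)} (hd : Disc ε Γ)
    (F : Set ℍ) (hF : MeasurableSet F) (hvol : volume F < ∞) (hcov : ∀ z : ℍ, ∃ g ∈ Γ, g • z ∈ F)
    (hnc : ∀ R : ℝ, ∃ z : ℍ, ∀ g ∈ Γ, R < dist z (g • I)) :
    ∃ p ∈ Γ, p ≠ 1 ∧ p 0 0 + p 1 1 = 2 :=
  exists_parabolic_of count_ball (fun hd F hF hvol hcov => small_elt hd F hF hvol hcov)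
    H5.commute_small H5.centralizer_trans hd F hF hvol hcov hnc

end

end Pool.Agent.Helper97.Fuchs
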