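import Pool.Agent.Helper97.Fuchs.Base2

/-!
# Uniform growth from the existence of a stationary measure with positive exponent
-/

namespace Pool.Agent.Helper97.Fuchs

open MeasureTheory Matrix UpperHalfPlane Filter Topology
open scoped MatrixGroups ENNReal BigOperators

noncomputable section

set_option linter.unusedSectionVars false

variable {ι : Type} [Fintype ι]

/-- the Markov operator on functions of the circle -/
def Tc (w : ι → ℝ) (A : ι → SL(2, ℝ)) (g : S1 → ℝ) (z : S1) : ℝ := ∑ i, w i * g (circ (A i) z)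

/-- the expected logarithmic expansion -/
def phi (w : ι → ℝ) (A : ι → SL(2, ℝ)) (z : S1) : ℝ :=
  ∑ i, w i * Real.log ‖lin (A i) (z : ℂ)‖

/-- the dual operator on measures -/
def Sm (w : ι → ℝ) (A : ι → SL(2, ℝ)) (η : Measure S1) : Measure S1 :=
  ∑ i, ENNReal.ofReal (w i) • η.map (circ (A i))

lemma continuous_phi (w : ι → ℝ) (A : ι → SL(2, ℝ)) : Continuous (phi w A) := by
  unfold phi
  refine continuous_finsetSum _ fun i _ => ?_
  refine continuous_const.mul ?_
  have h1 : Continuous fun z : S1 => ‖lin (A i) (z : ℂ)‖ :=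
    ((continuous_lin_right (A i)).comp continuous_subtype_val).norm
  exact h1.log fun z => by simpa using lin_ne_zero (S1_ne_zero z)

lemma continuous_Tc (w : ι → ℝ) (A : ι → SL(2, ℝ)) {g : S1 → ℝ} (hg : Continuous g) :
    Continuous (Tc w A g) := by
  unfold Tc
  exact continuous_finsetSum _ fun i _ => continuous_const.mul (hg.comp (continuous_circ _))

lemma continuous_Tc_iter (w : ι → ℝ) (A : ι → SL(2, ℝ)) {g : S1 → ℝ} (hg : Continuous g) (k : ℕ) :
    Continuous ((Tc w A)^[k] g) := by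
  induction k with
  | zero => simpa using hg
  | succ k ih => rw [Function.iterate_succ_apply']; exact continuous_Tc w A ih

lemma Tc_add (w : ι → ℝ) (A : ι → SL(2, ℝ)) (f g : S1 → ℝ) :
    Tc w A (fun z => f z + g z) = fun z => Tc w A f z + Tc w A g z := by
  funext z; simp [Tc, mul_add, Finset.sum_add_distrib]

lemma Tc_sum (w : ι → ℝ) (A : ι → SL(2, ℝ)) (n : ℕ) (f : ℕ → S1 → ℝ) :
    Tc w A (fun z => ∑ k ∈ Finset.range n, f k z) = fun z => ∑ k ∈ Finset.range n, Tc w A (f k) z := by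
  funext z
  simp only [Tc, Finset.mul_sum]
  rw [Finset.sum_comm]

lemma quasi_hom {w : ι → ℝ} (hw : ∑ i, w i = 1) (A : ι → SL(2, ℝ)) (n : ℕ) {t : ℝ} (ht : 0 < t)
    {z : ℂ} (hz : z ≠ 0) :
    (avg w A)^[n] (fun z => Real.log ‖z‖) ((t : ℂ) * z) =
      Real.log t + (avg w A)^[n] (fun z => Real.log ‖z‖) z := by
  rw [← Ex_iter, ← Ex_iter]
  have : ∀ u : Fin n → ι, Real.log ‖lin (word A u) ((t : ℂ) * z)‖ =
      Real.log t + Real.log ‖lin (word A u) z‖ := by
    intro u
    rw [lin_smul, norm_mul, Complex.norm_real, Real.norm_of_nonneg ht.le,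
      Real.log_mul ht.ne' (by simpa using lin_ne_zero hz)]
  simp only [this]
  rw [Ex_add, Ex_const hw]

lemma iter_log_eq {w : ι → ℝ} (hw : ∑ i, w i = 1) (A : ι → SL(2, ℝ)) (n : ℕ) (z : S1) :
    (avg w A)^[n] (fun z => Real.log ‖z‖) (z : ℂ) =
      ∑ k ∈ Finset.range n, (Tc w A)^[k] (phi w A) z := by
  induction n generalizing z with
  | zero => simp
  | succ n ih =>
    rw [Function.iterate_succ_apply']
    have h1 : avg w A ((avg w A)^[n] fun z => Real.log ‖z‖) (z : ℂ) =
        ∑ i, w i * (Real.log ‖lin (A i) (z : ℂ)‖ +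
          ∑ k ∈ Finset.range n, (Tc w A)^[k] (phi w A) (circ (A i) z)) := by
      show ∑ i, w i * ((avg w A)^[n] fun z => Real.log ‖z‖) (lin (A i) (z : ℂ)) = _
      refine Finset.sum_congr rfl fun i _ => ?_
      congr 1
      have hpos : 0 < ‖lin (A i) (z : ℂ)‖ := norm_pos_iff.2 (lin_ne_zero (S1_ne_zero z))
      have h2 := quasi_hom hw A n hpos (S1_ne_zero (circ (A i) z))
      rw [← circ_smul_eq (A i) z, ih] at h2
      exact h2
    rw [h1, Finset.sum_range_succ']
    simp only [mul_add, Finset.sum_add_distrib, Function.iterate_zero, id_eq]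
    rw [add_comm]
    congr 1
    have h2 := congrFun (Tc_sum w A n (fun k => (Tc w A)^[k] (phi w A))) z
    simp only [Tc] at h2
    rw [h2]
    refine Finset.sum_congr rfl fun k _ => ?_
    rw [Function.iterate_succ_apply']
    rfl

lemma isProb_Sm {w : ι → ℝ} (hw : IsWt w) (A : ι → SL(2, ℝ)) (η : Measure S1)
    [IsProbabilityMeasure η] : IsProbabilityMeasure (Sm w A η) := by
  constructor
  unfold Sm
  rw [Measure.finsetSum_apply]
  have : ∀ i, (ENNReal.ofReal (w i) • η.map (circ (A i))) Set.univ = ENNReal.ofReal (w i) := by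
    intro i
    rw [Measure.smul_apply, Measure.map_apply (measurable_circ _) MeasurableSet.univ]
    simp
  simp only [this]
  rw [← ENNReal.ofReal_sum_of_nonneg (fun i _ => hw.nonneg i), hw.sum]
  simp

lemma integral_Sm {w : ι → ℝ} (hw : IsWt w) (A : ι → SL(2, ℝ)) (η : Measure S1)
    [IsProbabilityMeasure η] {g : S1 → ℝ} (hg : Continuous g) :
    ∫ z, g z ∂(Sm w A η) = ∫ z, Tc w A g z ∂η := by
  have hint : ∀ (m : Measure S1) [IsFiniteMeasure m] {f : S1 → ℝ}, Continuous f → Integrable f m := by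
    intro m _ f hf
    exact hf.integrable_of_hasCompactSupport (HasCompactSupport.of_compactSpace f)
  unfold Sm Tc
  rw [integral_finsetSum_measure]
  · have hI : ∀ i ∈ (Finset.univ : Finset ι), Integrable (fun z => w i * g (circ (A i) z)) η :=
      fun i _ => hint η (continuous_const.mul (hg.comp (continuous_circ (A i))))
    rw [integral_finsetSum _ hI]
    refine Finset.sum_congr rfl fun i _ => ?_
    rw [integral_smul_measure, integral_map (measurable_circ _).aemeasurable
      hg.aestronglyMeasurable, integral_const_mul, ENNReal.toReal_ofReal (hw.nonneg i)]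
    rfl
  · intro i _
    refine Integrable.smul_measure ?_ (by simp)
    have : IsProbabilityMeasure (η.map (circ (A i))) :=
      Measure.isProbabilityMeasure_map (measurable_circ _).aemeasurable
    exact hint _ hg

/-- laws of the chain started at `v` -/
def law (w : ι → ℝ) (A : ι → SL(2, ℝ)) (v : S1) : ℕ → Measure S1
  | 0 => Measure.dirac v
  | n + 1 => Sm w A (law w A v n)

lemma isProb_law {w : ι → ℝ} (hw : IsWt w) (A : ι → SL(2, ℝ)) (v : S1) (n : ℕ) :
    IsProbabilityMeasure (law w A v n) := by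
  induction n with
  | zero => exact Measure.dirac.isProbabilityMeasure
  | succ n ih => exact isProb_Sm hw A _

lemma integral_law {w : ι → ℝ} (hw : IsWt w) (A : ι → SL(2, ℝ)) (v : S1) (n : ℕ) {g : S1 → ℝ}
    (hg : Continuous g) : ∫ z, g z ∂(law w A v n) = (Tc w A)^[n] g v := by
  induction n generalizing g with
  | zero => simp [law]
  | succ n ih =>
    have := isProb_law hw A v n
    rw [law, integral_Sm hw A _ hg, ih (continuous_Tc w A hg), Function.iterate_succ_apply]

/-- Cesàro averages -/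
def ces (w : ι → ℝ) (A : ι → SL(2, ℝ)) (v : S1) (n : ℕ) : Measure S1 :=
  (ENNReal.ofReal ((n : ℝ) + 1)⁻¹) • ∑ k ∈ Finset.range (n + 1), law w A v k

lemma isProb_ces {w : ι → ℝ} (hw : IsWt w) (A : ι → SL(2, ℝ)) (v : S1) (n : ℕ) :
    IsProbabilityMeasure (ces w A v n) := by
  constructor
  unfold ces
  rw [Measure.smul_apply, Measure.finsetSum_apply]
  have : ∀ k, law w A v k Set.univ = 1 := fun k => by
    have := isProb_law hw A v k; exact measure_univ
  simp only [this, Finset.sum_const, Finset.card_range, nsmul_eq_mul, mul_one, smul_eq_mul]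
  have h1 : ((n + 1 : ℕ) : ℝ≥0∞) = ENNReal.ofReal ((n : ℝ) + 1) := by
    rw [ENNReal.ofReal_add (by positivity) (by norm_num)]
    simp
  rw [h1, ← ENNReal.ofReal_mul (by positivity), inv_mul_cancel₀ (by positivity)]
  simp

lemma integral_ces {w : ι → ℝ} (hw : IsWt w) (A : ι → SL(2, ℝ)) (v : S1) (n : ℕ) {g : S1 → ℝ}
    (hg : Continuous g) :
    ∫ z, g z ∂(ces w A v n) = ((n : ℝ) + 1)⁻¹ * ∑ k ∈ Finset.range (n + 1), (Tc w A)^[k] g v := by
  unfold ces
  rw [integral_smul_measure, integral_finsetSum_measure]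
  · rw [ENNReal.toReal_ofReal (by positivity)]
    simp only [integral_law hw A v _ hg, smul_eq_mul]
  · intro k _
    have := isProb_law hw A v k
    exact hg.integrable_of_hasCompactSupport (HasCompactSupport.of_compactSpace g)

lemma abs_Tc_iter_le {w : ι → ℝ} (hw : IsWt w) (A : ι → SL(2, ℝ)) {g : S1 → ℝ} {B : ℝ}
    (hg : ∀ z, |g z| ≤ B) (n : ℕ) : ∀ z, |(Tc w A)^[n] g z| ≤ B := by
  induction n with
  | zero => simpa using hg
  | succ n ih =>
    intro z
    rw [Function.iterate_succ_apply']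
    unfold Tc
    calc |∑ i, w i * (Tc w A)^[n] g (circ (A i) z)|
        ≤ ∑ i, |w i * (Tc w A)^[n] g (circ (A i) z)| := Finset.abs_sum_le_sum_abs _ _
      _ ≤ ∑ i, w i * B := by
          refine Finset.sum_le_sum fun i _ => ?_
          rw [abs_mul, abs_of_pos (hw.pos i)]
          exact mul_le_mul_of_nonneg_left (ih _) (hw.nonneg i)
      _ = B := by rw [← Finset.sum_mul, hw.sum, one_mul]

/-- limits of Cesàro averages are stationary -/
theorem exists_limit {w : ι → ℝ} (hw : IsWt w) (A : ι → SL(2, ℝ)) (v : ℕ → S1) :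
    ∃ η : Measure S1, Stat w A η ∧ ∃ U : Ultrafilter ℕ, (U : Filter ℕ) ≤ atTop ∧
      ∀ g : S1 → ℝ, Continuous g →
        Tendsto (fun n => ∫ z, g z ∂(ces w A (v n) n)) U (𝓝 (∫ z, g z ∂η)) := by
  let m : ℕ → ProbabilityMeasure S1 := fun n => ⟨ces w A (v n) n, isProb_ces hw A (v n) n⟩
  let U : Ultrafilter ℕ := Ultrafilter.of atTop
  have hU : (U : Filter ℕ) ≤ atTop := Ultrafilter.of_le _
  obtain ⟨η, hη⟩ : ∃ η : ProbabilityMeasure S1, Tendsto m U (𝓝 η) := by
    obtain ⟨η, -, h⟩ := isCompact_univ.ultrafilter_le_nhds (U.map m) (by simp)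
    exact ⟨η, h⟩
  have hlim : ∀ g : S1 → ℝ, Continuous g →
      Tendsto (fun n => ∫ z, g z ∂(ces w A (v n) n)) U (𝓝 (∫ z, g z ∂(η : Measure S1))) := by
    intro g hg
    have h1 := (ProbabilityMeasure.tendsto_iff_forall_integral_tendsto.1 hη)
      (BoundedContinuousFunction.mkOfCompact ⟨g, hg⟩)
    exact h1
  refine ⟨η, ⟨inferInstance, ?_⟩, U, hU, hlim⟩
  have hprob : IsProbabilityMeasure (Sm w A (η : Measure S1)) := isProb_Sm hw A _
  have hinv : ∀ g : S1 → ℝ, Continuous g →
      ∫ z, g z ∂(Sm w A (η : Measure S1)) = ∫ z, g z ∂(η : Measure S1) := by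
    intro g hg
    rw [integral_Sm hw A _ hg]
    have h1 := hlim g hg
    have h2 := hlim (Tc w A g) (continuous_Tc w A hg)
    have h3 : Tendsto (fun n => ∫ z, Tc w A g z ∂(ces w A (v n) n) -
        ∫ z, g z ∂(ces w A (v n) n)) U (𝓝 0) := by
      obtain ⟨B, hB⟩ : ∃ B, ∀ z, |g z| ≤ B := by
        obtain ⟨B, hB⟩ := (isCompact_univ (X := S1)).exists_bound_of_continuousOn hg.continuousOn
        exact ⟨B, fun z => hB z (Set.mem_univ _)⟩
      have h4 : ∀ n : ℕ, |∫ z, Tc w A g z ∂(ces w A (v n) n) - ∫ z, g z ∂(ces w A (v n) n)| ≤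
          2 * B * ((n : ℝ) + 1)⁻¹ := by
        intro n
        rw [integral_ces hw A _ _ (continuous_Tc w A hg), integral_ces hw A _ _ hg, ← mul_sub]
        have h5 : ∑ k ∈ Finset.range (n + 1), (Tc w A)^[k] (Tc w A g) (v n) -
            ∑ k ∈ Finset.range (n + 1), (Tc w A)^[k] g (v n) =
            (Tc w A)^[n + 1] g (v n) - g (v n) := by
          have h6 : ∀ k, (Tc w A)^[k] (Tc w A g) = (Tc w A)^[k + 1] g := fun k => by
            rw [Function.iterate_succ_apply]
          simp only [h6]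
          rw [← Finset.sum_sub_distrib, Finset.sum_range_sub (fun k => (Tc w A)^[k] g (v n))]
          simp
        rw [h5, abs_mul, abs_of_pos (by positivity : (0 : ℝ) < ((n : ℝ) + 1)⁻¹), mul_comm]
        apply mul_le_mul_of_nonneg_right _ (by positivity)
        have h7 := abs_Tc_iter_le hw A hB (n + 1) (v n)
        have h8 := hB (v n)
        calc |(Tc w A)^[n + 1] g (v n) - g (v n)| ≤ |(Tc w A)^[n + 1] g (v n)| + |g (v n)| :=
              abs_sub _ _
          _ ≤ 2 * B := by linarith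
      have h5 : Tendsto (fun n : ℕ => 2 * B * ((n : ℝ) + 1)⁻¹) U (𝓝 0) := by
        have : Tendsto (fun n : ℕ => 2 * B * ((n : ℝ) + 1)⁻¹) atTop (𝓝 (2 * B * 0)) := by
          refine Tendsto.const_mul _ ?_
          have h9 := tendsto_one_div_add_atTop_nhds_zero_nat (𝕜 := ℝ)
          simpa [one_div] using h9
        rw [mul_zero] at this
        exact this.mono_left hU
      exact squeeze_zero_norm (fun n => by rw [Real.norm_eq_abs]; exact h4 n) h5
    have h4 := h2.sub h1
    have h5 := tendsto_nhds_unique h4 h3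
    linarith
  have h1 : Sm w A (η : Measure S1) = (η : Measure S1) := by
    refine ext_of_forall_integral_eq_of_IsFiniteMeasure fun g => ?_
    exact hinv g g.continuous
  exact h1

/-- stationary measures charge no line -/
theorem stat_nonatomic {w : ι → ℝ} (hw : IsWt w) (A : ι → SL(2, ℝ)) (hA : NoInv A)
    {η : Measure S1} (hη : Stat w A η) (x : S1) : η {z | wedge (z : ℂ) x = 0} = 0 := by
  classical
  have hprob := hη.1
  -- negation on the circle
  let ng : S1 → S1 := fun z => ⟨-(z : ℂ), by simp⟩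
  have hng : ∀ z : S1, ((ng z : S1) : ℂ) = -(z : ℂ) := fun z => rfl
  have hng2 : ∀ z, ng (ng z) = z := fun z => by apply Subtype.ext; simp [hng]
  have hcng : ∀ (g : SL(2, ℝ)) z, circ g (ng z) = ng (circ g z) := by
    intro g z
    apply Subtype.ext
    rw [coe_circ, hng, lin_neg, hng, coe_circ, norm_neg, neg_div]
  have hset : ∀ x : S1, {z : S1 | wedge (z : ℂ) x = 0} = {x, ng x} := by
    intro x
    ext z
    simp only [Set.mem_ofPred_eq, Set.mem_insert_iff, Set.mem_singleton_iff]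
    constructor
    · intro h
      have h1 := wedge_sq_add (z : ℂ) (x : ℂ)
      rw [h, S1_norm, S1_norm] at h1
      set t := (z : ℂ).re * (x : ℂ).re + (z : ℂ).im * (x : ℂ).im with ht
      have hx : (x : ℂ).re ^ 2 + (x : ℂ).im ^ 2 = 1 := by
        have h2 : ‖(x : ℂ)‖ ^ 2 = 1 := by rw [S1_norm]; norm_num
        rw [Complex.sq_norm, Complex.normSq_apply] at h2
        nlinarith
      have hre : (z : ℂ).re = t * (x : ℂ).re := by
        simp only [wedge] at h
        rw [ht]
        linear_combination (-(z : ℂ).re) * hx + (x : ℂ).im * h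
      have him : (z : ℂ).im = t * (x : ℂ).im := by
        simp only [wedge] at h
        rw [ht]
        linear_combination (-(z : ℂ).im) * hx - (x : ℂ).re * h
      have ht2 : (t - 1) * (t + 1) = 0 := by nlinarith
      rcases mul_eq_zero.1 ht2 with h3 | h3
      · left
        apply Subtype.ext
        apply Complex.ext
        · rw [hre, show t = 1 by linarith, one_mul]
        · rw [him, show t = 1 by linarith, one_mul]
      · right
        apply Subtype.ext
        rw [hng]
        apply Complex.ext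
        · rw [hre, show t = -1 by linarith]; simp
        · rw [him, show t = -1 by linarith]; simp
    · rintro (rfl | rfl)
      · simp [wedge]; ring
      · simp [wedge, hng]; ring
  rw [hset]
  by_contra hne
  -- the mass of a pair
  let f : S1 → ℝ≥0∞ := fun y => η {y, ng y}
  have hfx : 0 < f x := pos_iff_ne_zero.2 hne
  have hstat : ∀ y, f y = ∑ i, ENNReal.ofReal (w i) * f (circ (A i)⁻¹ y) := by
    intro y
    have h1 : f y = (∑ i, ENNReal.ofReal (w i) • η.map (circ (A i))) {y, ng y} := by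
      rw [hη.2]
    rw [h1, Measure.finsetSum_apply]
    refine Finset.sum_congr rfl fun i _ => ?_
    have hms : MeasurableSet ({y, ng y} : Set S1) := (Set.toFinite _).measurableSet
    rw [Measure.smul_apply, smul_eq_mul, Measure.map_apply (measurable_circ _) hms]
    congr 1
    show η (circ (A i) ⁻¹' {y, ng y}) = η {circ (A i)⁻¹ y, ng (circ (A i)⁻¹ y)}
    congr 1
    ext z
    simp only [Set.mem_preimage, Set.mem_insert_iff, Set.mem_singleton_iff]
    have hc : ∀ y', circ (A i) z = y' ↔ z = circ (A i)⁻¹ y' := by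
      intro y'
      constructor
      · rintro rfl
        rw [← circ_mul, inv_mul_cancel, circ_one]
      · rintro rfl
        rw [← circ_mul, mul_inv_cancel, circ_one]
    rw [hc, hc, hcng]
  have hfin : {y | f x ≤ f y}.Finite := by
    have h1 : {y : S1 | f x / 2 ≤ η {y}}.Finite := by
      have := Measure.finite_const_le_meas_of_disjoint_iUnion η
        (ENNReal.half_pos hfx.ne') (As := fun y : S1 => ({y} : Set S1))
        (fun y => measurableSet_singleton y)
        (fun a b hab => by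
          simp only [Function.onFun, Set.disjoint_singleton]; exact hab)
        (measure_ne_top _ _)
      exact this
    have h2 : {y : S1 | f x / 2 ≤ η {ng y}}.Finite := by
      have : {y : S1 | f x / 2 ≤ η {ng y}} = ng '' {y : S1 | f x / 2 ≤ η {y}} := by
        ext y
        simp only [Set.mem_ofPred_eq, Set.mem_image]
        constructor
        · intro h; exact ⟨ng y, h, hng2 y⟩
        · rintro ⟨y', h, rfl⟩; rw [hng2]; exact h
      rw [this]; exact h1.image _
    refine (h1.union h2).subset ?_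
    intro y hy
    by_contra hc
    simp only [Set.mem_union, Set.mem_ofPred_eq, not_or, not_le] at hc
    have h3 : f y ≤ η {y} + η {ng y} := by
      show η {y, ng y} ≤ _
      rw [Set.insert_eq]; exact measure_union_le _ _
    have h4 : η {y} + η {ng y} < f x / 2 + f x / 2 := ENNReal.add_lt_add hc.1 hc.2
    rw [ENNReal.add_halves] at h4
    exact absurd (hy.trans h3) (not_le.2 h4)
  -- maximal pairs
  obtain ⟨y₀, hy₀, hmax⟩ := hfin.exists_maximalFor f _ ⟨x, le_refl (f x)⟩
  have hmax' : ∀ y, f y ≤ f y₀ := by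
    intro y
    by_cases h : f x ≤ f y
    · by_contra hc
      exact hc (hmax h (le_of_not_ge hc))
    · exact (le_of_not_ge h).trans hy₀
  let fr : S1 → ℝ := fun y => (f y).toReal
  have hf_top : ∀ y, f y ≠ ∞ := fun y => measure_ne_top _ _
  have hfr : ∀ y, fr y = ∑ i, w i * fr (circ (A i)⁻¹ y) := by
    intro y
    show (f y).toReal = _
    rw [hstat y, ENNReal.toReal_sum (fun i _ => ENNReal.mul_ne_top (by simp) (hf_top _))]
    refine Finset.sum_congr rfl fun i _ => ?_
    rw [ENNReal.toReal_mul, ENNReal.toReal_ofReal (hw.nonneg i)]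
  have hfrmax : ∀ y, fr y ≤ fr y₀ := fun y => (ENNReal.toReal_le_toReal (hf_top _) (hf_top _)).2 (hmax' y)
  let F : Set S1 := {y | fr y = fr y₀}
  have hFfin : F.Finite := hfin.subset fun y hy => by
    show f x ≤ f y
    have h1 : fr y = fr y₀ := hy
    have h2 : f y = f y₀ := (ENNReal.toReal_eq_toReal_iff' (hf_top _) (hf_top _)).1 h1
    rw [h2]; exact hy₀
  have hFinv : ∀ i, ∀ y ∈ F, circ (A i)⁻¹ y ∈ F := by
    intro i y hy
    by_contra hc
    have hlt : fr (circ (A i)⁻¹ y) < fr y₀ := lt_of_le_of_ne (hfrmax _) hc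
    have h1 := hfr y
    have hy' : fr y = fr y₀ := hy
    have h2 : ∑ j, w j * fr (circ (A j)⁻¹ y) < ∑ j, w j * fr y₀ := by
      refine Finset.sum_lt_sum (fun j _ => mul_le_mul_of_nonneg_left (hfrmax _) (hw.nonneg j))
        ⟨i, Finset.mem_univ _, mul_lt_mul_of_pos_left hlt (hw.pos i)⟩
    rw [← Finset.sum_mul, hw.sum, one_mul, ← h1, hy'] at h2
    exact lt_irrefl _ h2
  -- the maps `circ (A i)` permute `F`
  have hinj : ∀ i, Function.Injective (circ (A i)⁻¹) := by
    intro i a b hab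
    have := congrArg (circ (A i)) hab
    rwa [← circ_mul, ← circ_mul, mul_inv_cancel, circ_one, circ_one] at this
  have himg : ∀ i, (circ (A i)⁻¹) '' F = F := by
    intro i
    apply Set.eq_of_subset_of_ncard_le _ _ hFfin
    · rintro _ ⟨y, hy, rfl⟩; exact hFinv i y hy
    · rw [Set.ncard_image_of_injective _ (hinj i)]
  let Fs : Finset S1 := hFfin.toFinset
  have hy₀F : y₀ ∈ Fs := by simp [Fs, F]
  have himg' : ∀ i, Fs.image (circ (A i)) = Fs := by
    intro i
    ext y
    simp only [Finset.mem_image, Fs, Set.Finite.mem_toFinset]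
    constructor
    · rintro ⟨z, hz, rfl⟩
      have h1 : z ∈ (circ (A i)⁻¹) '' F := by rw [himg i]; exact hz
      obtain ⟨z', hz', rfl⟩ := h1
      rw [← circ_mul, mul_inv_cancel, circ_one]; exact hz'
    · intro hy
      exact ⟨circ (A i)⁻¹ y, hFinv i y hy, by rw [← circ_mul, mul_inv_cancel, circ_one]⟩
  have hinj' : ∀ i, Function.Injective (circ (A i)) := by
    intro i a b hab
    have := congrArg (circ (A i)⁻¹) hab
    rwa [← circ_mul, ← circ_mul, inv_mul_cancel, circ_one, circ_one] at this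
  let m : Measure S1 := (Fs.card : ℝ≥0∞)⁻¹ • ∑ y ∈ Fs, Measure.dirac y
  have hcard : (Fs.card : ℝ≥0∞) ≠ 0 := by
    simp only [ne_eq, Nat.cast_eq_zero, Finset.card_eq_zero]
    rintro h
    rw [h] at hy₀F
    simp at hy₀F
  have hmprob : IsProbabilityMeasure m := by
    constructor
    show ((Fs.card : ℝ≥0∞)⁻¹ • ∑ y ∈ Fs, Measure.dirac y) Set.univ = 1
    rw [Measure.smul_apply, Measure.finsetSum_apply]
    simp only [measure_univ, Finset.sum_const, nsmul_eq_mul, mul_one, smul_eq_mul]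
    exact ENNReal.inv_mul_cancel hcard (by simp)
  apply hA m hmprob
  intro i
  show ((Fs.card : ℝ≥0∞)⁻¹ • ∑ y ∈ Fs, Measure.dirac y).map (circ (A i)) =
    (Fs.card : ℝ≥0∞)⁻¹ • ∑ y ∈ Fs, Measure.dirac y
  rw [Measure.map_smul]
  congr 1
  rw [← Measure.mapₗ_apply_of_measurable (measurable_circ _), map_sum]
  conv_rhs => rw [← himg' i]
  rw [Finset.sum_image (fun a _ b _ h => hinj' i h)]
  refine Finset.sum_congr rfl fun y _ => ?_
  rw [Measure.mapₗ_apply_of_measurable (measurable_circ _)]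
  exact Measure.map_dirac' (measurable_circ _) _

/-- uniform smallness of the mass near lines -/
theorem stat_small {w : ι → ℝ} (hw : IsWt w) (A : ι → SL(2, ℝ)) (hA : NoInv A)
    {η : Measure S1} (hη : Stat w A η) {ε : ℝ} (hε : 0 < ε) :
    ∃ r : ℝ, 0 < r ∧ r < 1 ∧ ∀ x : S1, η {z : S1 | |wedge (z : ℂ) x| ≤ r} ≤ ENNReal.ofReal ε := by
  have hprob := hη.1
  by_contra hcon
  push Not at hcon
  have h1 : ∀ n : ℕ, ∃ x : S1, ENNReal.ofReal ε < η {z : S1 | |wedge (z : ℂ) x| ≤ ((n : ℝ) + 2)⁻¹} := by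
    intro n
    refine hcon ((n : ℝ) + 2)⁻¹ (by positivity) (inv_lt_one_of_one_lt₀ (by
      have : (0 : ℝ) ≤ n := Nat.cast_nonneg n
      linarith))
  choose x hx using h1
  obtain ⟨x₀, -, φ, hφ, hlim⟩ := isCompact_univ.tendsto_subseq (fun n => Set.mem_univ (x n))
  have hwc : Continuous fun p : S1 × S1 => wedge (p.1 : ℂ) (p.2 : ℂ) := by
    unfold wedge
    fun_prop
  have h2 : ∀ δ : ℝ, 0 < δ → ENNReal.ofReal ε ≤ η {z : S1 | |wedge (z : ℂ) x₀| ≤ δ} := by
    intro δ hδ
    have h3 : ∀ᶠ n in atTop, ‖((x (φ n) : S1) : ℂ) - x₀‖ < δ / 2 := by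
      have : Tendsto (fun n => ((x (φ n) : S1) : ℂ)) atTop (𝓝 (x₀ : ℂ)) :=
        (continuous_subtype_val.tendsto x₀).comp hlim
      have h4 := (Metric.tendsto_nhds.1 this) (δ / 2) (by positivity)
      simpa [dist_eq_norm] using h4
    have h5 : ∀ᶠ n in atTop, (((φ n : ℕ) : ℝ) + 2)⁻¹ < δ / 2 := by
      have h6 : Tendsto (fun n : ℕ => ((n : ℝ) + 2)⁻¹) atTop (𝓝 0) :=
        tendsto_inv_atTop_zero.comp (tendsto_atTop_add_const_right _ _ tendsto_natCast_atTop_atTop)
      exact (h6.comp hφ.tendsto_atTop).eventually (gt_mem_nhds (by positivity))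
    obtain ⟨n, hn1, hn2⟩ := (h3.and h5).exists
    refine (hx (φ n)).le.trans (measure_mono ?_)
    intro z hz
    have hz' : |wedge (z : ℂ) (x (φ n))| ≤ (((φ n : ℕ) : ℝ) + 2)⁻¹ := hz
    show |wedge (z : ℂ) x₀| ≤ δ
    have h7 : wedge (z : ℂ) x₀ = wedge (z : ℂ) (x (φ n)) - wedge (z : ℂ) ((x (φ n) : ℂ) - x₀) := by
      simp only [wedge, Complex.sub_re, Complex.sub_im]; ring
    have h8 := abs_wedge_le (z : ℂ) ((x (φ n) : ℂ) - x₀)
    rw [S1_norm, one_mul] at h8
    rw [h7]
    calc _ ≤ |wedge (z : ℂ) (x (φ n))| + |wedge (z : ℂ) ((x (φ n) : ℂ) - x₀)| := abs_sub _ _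
      _ ≤ δ := by linarith
  have h3 : η {z : S1 | wedge (z : ℂ) x₀ = 0} = 0 := stat_nonatomic hw A hA hη x₀
  have h4 : {z : S1 | wedge (z : ℂ) x₀ = 0} = ⋂ n : ℕ, {z : S1 | |wedge (z : ℂ) x₀| ≤ ((n : ℝ) + 1)⁻¹} := by
    ext z
    simp only [Set.mem_ofPred_eq, Set.mem_iInter]
    constructor
    · intro h n; rw [h]; simp; positivity
    · intro h
      have h5 : |wedge (z : ℂ) x₀| ≤ 0 := by
        have h9 := tendsto_one_div_add_atTop_nhds_zero_nat (𝕜 := ℝ)
        refine ge_of_tendsto h9 (Eventually.of_forall fun n => ?_)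
        rw [one_div]; exact h n
      exact abs_eq_zero.1 (le_antisymm h5 (abs_nonneg _))
  have hcont : Continuous fun z : S1 => |wedge (z : ℂ) x₀| := by
    unfold wedge
    fun_prop
  have h5 : Tendsto (fun n : ℕ => η {z : S1 | |wedge (z : ℂ) x₀| ≤ ((n : ℝ) + 1)⁻¹}) atTop
      (𝓝 (η (⋂ n : ℕ, {z : S1 | |wedge (z : ℂ) x₀| ≤ ((n : ℝ) + 1)⁻¹}))) := by
    apply tendsto_measure_iInter_atTop
    · intro n
      exact (isClosed_le hcont continuous_const).measurableSet.nullMeasurableSet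
    · intro a b hab z hz
      have hz' : |wedge (z : ℂ) x₀| ≤ ((b : ℝ) + 1)⁻¹ := hz
      show |wedge (z : ℂ) x₀| ≤ ((a : ℝ) + 1)⁻¹
      refine hz'.trans ?_
      apply inv_anti₀ (by positivity)
      have : (a : ℝ) ≤ b := by exact_mod_cast hab
      linarith
    · exact ⟨0, measure_ne_top _ _⟩
  rw [← h4, h3] at h5
  have h6 : ENNReal.ofReal ε ≤ 0 :=
    ge_of_tendsto h5 (Eventually.of_forall fun n => h2 _ (by positivity))
  have h7 : 0 < ENNReal.ofReal ε := ENNReal.ofReal_pos.2 hε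
  exact absurd h6 (not_le.2 h7)

/-- contracted direction -/
lemma exists_contracted (g : SL(2, ℝ)) :
    ∃ y : S1, ∀ z : S1, |wedge (z : ℂ) y| * nrm g / 2 ≤ ‖lin g (z : ℂ)‖ := by
  -- one of the two basis vectors is expanded by `g⁻¹`
  obtain ⟨e, he1, he2⟩ : ∃ e : ℂ, ‖e‖ = 1 ∧ nrm g ^ 2 / 2 ≤ ‖lin g⁻¹ e‖ ^ 2 := by
    have h1 : ‖lin g⁻¹ 1‖ ^ 2 + ‖lin g⁻¹ Complex.I‖ ^ 2 = nrm g ^ 2 := by
      rw [← nrm_inv g, nrm_sq, Complex.sq_norm, Complex.sq_norm, Complex.normSq_apply,
        Complex.normSq_apply]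
      simp [lin]
      ring
    by_cases h : nrm g ^ 2 / 2 ≤ ‖lin g⁻¹ 1‖ ^ 2
    · exact ⟨1, by simp, h⟩
    · exact ⟨Complex.I, by simp, by linarith⟩
  have he0 : e ≠ 0 := by rintro rfl; simp at he1
  set y' := lin g⁻¹ e with hy'
  have hy0 : y' ≠ 0 := lin_ne_zero he0
  have hyn : 0 < ‖y'‖ := norm_pos_iff.2 hy0
  refine ⟨⟨y' / (‖y'‖ : ℂ), by simp [hyn.ne']⟩, fun z => ?_⟩
  have h1 : wedge (z : ℂ) (y' / (‖y'‖ : ℂ)) = wedge (z : ℂ) y' / ‖y'‖ := by
    have : y' / (‖y'‖ : ℂ) = ((‖y'‖⁻¹ : ℝ) : ℂ) * y' := by push_cast; field_simp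
    rw [this]
    simp only [wedge, Complex.mul_re, Complex.mul_im, Complex.ofReal_re, Complex.ofReal_im]
    field_simp
    ring
  have h2 : |wedge (z : ℂ) y'| ≤ ‖lin g (z : ℂ)‖ := by
    have h3 := abs_wedge_le (lin g (z : ℂ)) (lin g y')
    rw [wedge_lin, hy', lin_lin_inv, he1, mul_one] at h3
    rw [hy']; exact h3
  show |wedge (z : ℂ) (y' / (‖y'‖ : ℂ))| * nrm g / 2 ≤ _
  rw [h1, abs_div, abs_of_pos hyn]
  have h3 : nrm g / 2 ≤ ‖y'‖ := by
    have := nrm_nonneg g
    nlinarith
  have h4 : nrm g / 2 / ‖y'‖ ≤ 1 := by rw [div_le_one hyn]; exact h3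
  calc |wedge (z : ℂ) y'| / ‖y'‖ * nrm g / 2 = |wedge (z : ℂ) y'| * (nrm g / 2 / ‖y'‖) := by ring
    _ ≤ |wedge (z : ℂ) y'| * 1 := mul_le_mul_of_nonneg_left h4 (abs_nonneg _)
    _ ≤ _ := by rw [mul_one]; exact h2

lemma continuous_loglin (g : SL(2, ℝ)) : Continuous fun z : S1 => Real.log ‖lin g (z : ℂ)‖ := by
  have h1 : Continuous fun z : S1 => ‖lin g (z : ℂ)‖ :=
    ((continuous_lin_right g).comp continuous_subtype_val).norm
  exact h1.log fun z => by simpa using lin_ne_zero (S1_ne_zero z)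

lemma integrable_cont {η : Measure S1} [IsFiniteMeasure η] {f : S1 → ℝ} (hf : Continuous f) :
    Integrable f η := hf.integrable_of_hasCompactSupport (HasCompactSupport.of_compactSpace f)

lemma loglin_lower (g : SL(2, ℝ)) (z : S1) : -Real.log (nrm g) ≤ Real.log ‖lin g (z : ℂ)‖ := by
  have h1 := norm_le_lin g (z : ℂ)
  rw [S1_norm] at h1
  have h2 : 0 < ‖lin g (z : ℂ)‖ := norm_pos_iff.2 (lin_ne_zero (S1_ne_zero z))
  have h3 := Real.log_le_log one_pos h1
  rw [Real.log_one, Real.log_mul (nrm_pos g).ne' h2.ne'] at h3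
  linarith

lemma log_nrm_nonneg (g : SL(2, ℝ)) : 0 ≤ Real.log (nrm g) := Real.log_nonneg (one_le_nrm g)

lemma loglin_upper (g : SL(2, ℝ)) (z : S1) : Real.log ‖lin g (z : ℂ)‖ ≤ Real.log (nrm g) := by
  have h1 := norm_lin_le g (z : ℂ)
  rw [S1_norm, mul_one] at h1
  exact Real.log_le_log (norm_pos_iff.2 (lin_ne_zero (S1_ne_zero z))) h1

/-- integral lower bound -/
lemma integral_loglin_ge {η : Measure S1} [IsProbabilityMeasure η] {ε r : ℝ} (hε : 0 < ε)
    (hr : 0 < r) (hr1 : r < 1)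
    (hsm : ∀ x : S1, η {z : S1 | |wedge (z : ℂ) x| ≤ r} ≤ ENNReal.ofReal ε) (g : SL(2, ℝ)) :
    (1 - 2 * ε) * Real.log (nrm g) + Real.log (r / 2) ≤ ∫ z, Real.log ‖lin g (z : ℂ)‖ ∂η := by
  obtain ⟨y, hy⟩ := exists_contracted g
  set B : Set S1 := {z : S1 | |wedge (z : ℂ) y| ≤ r} with hB
  have hBm : MeasurableSet B := by
    apply IsClosed.measurableSet
    refine isClosed_le ?_ continuous_const
    unfold wedge
    fun_prop
  have hBr : η.real B ≤ ε := by
    have := ENNReal.toReal_mono (by simp) (hsm y)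
    rwa [ENNReal.toReal_ofReal hε.le] at this
  have hlogr : Real.log (r / 2) ≤ 0 := Real.log_nonpos (by positivity) (by linarith)
  have hln := log_nrm_nonneg g
  have hpt : ∀ z : S1, (Real.log (nrm g) + Real.log (r / 2)) -
      (B.indicator (fun _ => 2 * Real.log (nrm g)) z) ≤ Real.log ‖lin g (z : ℂ)‖ := by
    intro z
    by_cases hz : z ∈ B
    · rw [Set.indicator_of_mem hz]
      have := loglin_lower g z
      linarith
    · rw [Set.indicator_of_notMem hz, sub_zero]
      have hz' : r < |wedge (z : ℂ) y| := lt_of_not_ge hz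
      have h1 := hy z
      have h2 : r / 2 * nrm g ≤ ‖lin g (z : ℂ)‖ := by
        refine le_trans ?_ h1
        have := nrm_pos g
        nlinarith
      have h3 := Real.log_le_log (by have := nrm_pos g; positivity) h2
      rw [Real.log_mul (by positivity) (nrm_pos g).ne'] at h3
      linarith
  have hint1 : Integrable (fun z : S1 => Real.log ‖lin g (z : ℂ)‖) η :=
    integrable_cont (continuous_loglin g)
  have hint2 : Integrable (B.indicator fun _ : S1 => 2 * Real.log (nrm g)) η :=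
    (integrable_const _).indicator hBm
  have h1 := integral_mono ((integrable_const (Real.log (nrm g) + Real.log (r / 2))).sub hint2)
    hint1 hpt
  have h2 : ∫ z, ((fun _ : S1 => Real.log (nrm g) + Real.log (r / 2)) -
      B.indicator fun _ : S1 => 2 * Real.log (nrm g)) z ∂η =
      (Real.log (nrm g) + Real.log (r / 2)) - η.real B * (2 * Real.log (nrm g)) := by
    simp only [Pi.sub_apply]
    rw [integral_sub (integrable_const _) hint2, integral_indicator hBm]
    simp
  rw [h2] at h1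
  nlinarith

lemma Ex_integral {w : ι → ℝ} (A : ι → SL(2, ℝ)) (η : Measure S1) [IsProbabilityMeasure η] (n : ℕ) :
    ∫ z, (avg w A)^[n] (fun z => Real.log ‖z‖) ((z : S1) : ℂ) ∂η =
      Ex w n (fun u => ∫ z, Real.log ‖lin (word A u) ((z : S1) : ℂ)‖ ∂η) := by
  have : ∀ z : S1, (avg w A)^[n] (fun z => Real.log ‖z‖) (z : ℂ) =
      ∑ u : Fin n → ι, wt w u * Real.log ‖lin (word A u) (z : ℂ)‖ := by
    intro z; rw [← Ex_iter]; rfl
  simp only [this]
  rw [integral_finsetSum _ (fun u _ => (integrable_cont (continuous_loglin _)).const_mul _)]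
  unfold Ex
  refine Finset.sum_congr rfl fun u _ => ?_
  rw [integral_const_mul]

/-- for stationary measures the exponent is additive -/
lemma integral_iter {w : ι → ℝ} (hw : IsWt w) (A : ι → SL(2, ℝ)) {η : Measure S1}
    (hη : Stat w A η) (n : ℕ) :
    ∫ z, (avg w A)^[n] (fun z => Real.log ‖z‖) ((z : S1) : ℂ) ∂η = n * ∫ z, phi w A z ∂η := by
  have hprob := hη.1
  have h1 : ∀ k : ℕ, ∫ z, (Tc w A)^[k] (phi w A) z ∂η = ∫ z, phi w A z ∂η := by
    intro k
    induction k with
    | zero => simp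
    | succ k ih =>
      have h2 := integral_Sm hw A η (continuous_Tc_iter w A (continuous_phi w A) k)
      have h3 : Sm w A η = η := hη.2
      rw [h3] at h2
      rw [Function.iterate_succ_apply', ← h2, ih]
  simp only [iter_log_eq hw.sum A n]
  rw [integral_finsetSum _ (fun k _ => integrable_cont (continuous_Tc_iter w A (continuous_phi w A) k))]
  simp [h1]

lemma L_bdd {w : ι → ℝ} (hw : IsWt w) (A : ι → SL(2, ℝ)) :
    BddBelow (Set.range fun n : ℕ => L w A (n + 1) / (n + 1)) := by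
  refine ⟨0, ?_⟩
  rintro _ ⟨n, rfl⟩
  have : 0 ≤ L w A (n + 1) := Ex_nonneg hw.nonneg fun u => log_nrm_nonneg _
  positivity

lemma lam_nonneg {w : ι → ℝ} (hw : IsWt w) (A : ι → SL(2, ℝ)) : 0 ≤ lam w A := by
  refine le_ciInf fun n => ?_
  have : 0 ≤ L w A (n + 1) := Ex_nonneg hw.nonneg fun u => log_nrm_nonneg _
  positivity

lemma lam_mul_le {w : ι → ℝ} (hw : IsWt w) (A : ι → SL(2, ℝ)) (n : ℕ) :
    lam w A * n ≤ L w A n := by
  rcases n with _ | m
  · simp only [Nat.cast_zero, mul_zero]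
    exact Ex_nonneg hw.nonneg fun u => log_nrm_nonneg _
  · have h := ciInf_le (L_bdd hw A) m
    have hp : (0 : ℝ) < (m : ℝ) + 1 := by positivity
    have h2 : lam w A ≤ L w A (m + 1) / (m + 1) := h
    rw [le_div_iff₀ hp] at h2
    push_cast
    exact h2

/-- every stationary measure has exponent at least `lam` -/
theorem stat_exponent_ge {w : ι → ℝ} (hw : IsWt w) (A : ι → SL(2, ℝ)) (hA : NoInv A)
    {η : Measure S1} (hη : Stat w A η) : lam w A ≤ ∫ z, phi w A z ∂η := by
  have hprob := hη.1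
  have key : ∀ ε : ℝ, 0 < ε → ε < 1 / 2 → (1 - 2 * ε) * lam w A ≤ ∫ z, phi w A z ∂η := by
    intro ε hε hε2
    obtain ⟨r, hr, hr1, hsm⟩ := stat_small hw A hA hη hε
    have h1 : ∀ n : ℕ, (1 - 2 * ε) * lam w A * n + Real.log (r / 2) ≤ n * ∫ z, phi w A z ∂η := by
      intro n
      rw [← integral_iter hw A hη n, Ex_integral]
      have h2 : Ex w n (fun u => (1 - 2 * ε) * Real.log (nrm (word A u)) + Real.log (r / 2)) ≤
          Ex w n (fun u => ∫ z, Real.log ‖lin (word A u) ((z : S1) : ℂ)‖ ∂η) :=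
        Ex_mono hw.nonneg fun u => integral_loglin_ge hε hr hr1 hsm _
      rw [Ex_add, Ex_mul_left, Ex_const hw.sum] at h2
      have h3 := lam_mul_le hw A n
      have h4 : (1 - 2 * ε) * (lam w A * n) ≤ (1 - 2 * ε) * L w A n :=
        mul_le_mul_of_nonneg_left h3 (by linarith)
      have h5 : Ex w n (fun u => Real.log (nrm (word A u))) = L w A n := rfl
      rw [h5] at h2
      linarith
    by_contra hc
    have hc' : ∫ z, phi w A z ∂η < (1 - 2 * ε) * lam w A := lt_of_not_ge hc
    set D := (1 - 2 * ε) * lam w A - ∫ z, phi w A z ∂η with hD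
    have hD0 : 0 < D := by linarith
    obtain ⟨n, hn⟩ := exists_nat_gt (-Real.log (r / 2) / D)
    rw [div_lt_iff₀ hD0] at hn
    have := h1 n
    nlinarith
  have h2 : Tendsto (fun ε : ℝ => (1 - 2 * ε) * lam w A) (𝓝[>] 0) (𝓝 ((1 - 2 * 0) * lam w A)) := by
    refine Tendsto.mono_left ?_ nhdsWithin_le_nhds
    exact (Continuous.tendsto (by fun_prop) 0)
  have h3 : ∀ᶠ ε : ℝ in 𝓝[>] 0, (1 - 2 * ε) * lam w A ≤ ∫ z, phi w A z ∂η := by
    have h4 : ∀ᶠ ε : ℝ in 𝓝[>] 0, ε < 1 / 2 :=
      nhdsWithin_le_nhds (gt_mem_nhds (by norm_num))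
    filter_upwards [h4, self_mem_nhdsWithin] with ε h5 h6
    exact key ε h6 h5
  have h4 := le_of_tendsto h2 h3
  simpa using h4

theorem unif_growth_of (w : ι → ℝ) (A : ι → SL(2, ℝ)) (hw : IsWt w) (hA : NoInv A)
    (hE : ∃ η : Measure S1, Stat w A η ∧ 0 < ∫ z, ∑ i, w i * Real.log ‖lin (A i) (z : ℂ)‖ ∂η) :
    0 < lam w A ∧ ∀ ε : ℝ, 0 < ε → ∃ K : ℕ, 1 ≤ K ∧ ∀ z : ℂ, ‖z‖ = 1 →
      (lam w A - ε) * K ≤ (avg w A)^[K] (fun z => Real.log ‖z‖) z := by
  constructor
  · obtain ⟨η, hη, hpos⟩ := hE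
    have hprob := hη.1
    have h1 : ∫ z, phi w A z ∂η ≤ lam w A := by
      refine le_ciInf fun n => ?_
      have hp : (0 : ℝ) < (n : ℝ) + 1 := by positivity
      rw [le_div_iff₀ hp]
      have h2 := integral_iter hw A hη (n + 1)
      rw [Ex_integral] at h2
      have h3 : Ex w (n + 1) (fun u => ∫ z, Real.log ‖lin (word A u) ((z : S1) : ℂ)‖ ∂η) ≤
          L w A (n + 1) := by
        refine Ex_mono hw.nonneg fun u => ?_
        have h4 := integral_mono (integrable_cont (η := η) (continuous_loglin (word A u)))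
          (integrable_const (Real.log (nrm (word A u)))) (fun z => loglin_upper (word A u) z)
        simpa using h4
      rw [h2] at h3
      push_cast at h3
      linarith
    exact lt_of_lt_of_le hpos h1
  · intro ε hε
    by_contra hcon
    push Not at hcon
    have h1 : ∀ n : ℕ, ∃ v : S1, (avg w A)^[n + 1] (fun z => Real.log ‖z‖) (v : ℂ) <
        (lam w A - ε) * ((n + 1 : ℕ) : ℝ) := by
      intro n
      obtain ⟨z, hz, hlt⟩ := hcon (n + 1) (by omega)
      exact ⟨⟨z, by simpa using hz⟩, hlt⟩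
    choose v hv using h1
    obtain ⟨η, hη, U, hU, hlim⟩ := exists_limit hw A v
    have h2 := hlim (phi w A) (continuous_phi w A)
    have h3 : ∀ n : ℕ, ∫ z, phi w A z ∂(ces w A (v n) n) ≤ lam w A - ε := by
      intro n
      rw [integral_ces hw A _ _ (continuous_phi w A), ← iter_log_eq hw.sum A (n + 1)]
      have hp : (0 : ℝ) < (n : ℝ) + 1 := by positivity
      rw [inv_mul_le_iff₀ hp]
      have := (hv n).le
      push_cast at this
      linarith
    have h4 : ∫ z, phi w A z ∂η ≤ lam w A - ε := le_of_tendsto h2 (Eventually.of_forall h3)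
    have h5 := stat_exponent_ge hw A hA hη
    linarith

end

end Pool.Agent.Helper97.Fuchs
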